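import Pool.Agent.H58.FreeTree.Regular

open Set Topology Filter PiNat MeasureTheory

namespace Pool.Agent.H58.FreeTree

/-- The metric segment between `p` and `q`. -/
def seg (p q : Tree) : Set Tree := {z | dist p z + dist z q = dist p q}

lemma isClosed_seg (p q : Tree) : IsClosed (seg p q) :=
  isClosed_eq (by fun_prop) continuous_const

/-- The part of a segment lying on the ray to `x`. -/
lemma mem_seg_left {x y : Leaf} {s u v : ℝ} (hs : s ∈ Icc (0 : ℝ) 1) (hu : u ∈ Icc (0 : ℝ) 1)
    (h1 : s ≤ v) (h2 : v ≤ max (max s u) (τ x y)) : P x v ∈ seg (P x s) (P y u) := by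
  set m := max (max s u) (τ x y) with hm
  have hm1 : m ≤ 1 := max_le (max_le hs.2 hu.2) (τ_le_one _ _)
  have hv : v ∈ Icc (0 : ℝ) 1 := ⟨hs.1.trans h1, h2.trans hm1⟩
  change dist (P x s) (P x v) + dist (P x v) (P y u) = dist (P x s) (P y u)
  rw [dist_P_same x hs hv, dist_P hv hu, dist_P hs hu, ← hm]
  have h3 : max (max v u) (τ x y) = m := by
    apply le_antisymm
    · exact max_le (max_le h2 (le_max_of_le_left (le_max_right _ _))) (le_max_right _ _)
    · apply max_le
      · apply max_le
        · exact h1.trans (le_max_of_le_left (le_max_left _ _))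
        · exact le_max_of_le_left (le_max_right _ _)
      · exact le_max_right _ _
  rw [h3, abs_of_nonpos (by linarith)]
  ring

lemma seg_comm (p q : Tree) : seg p q = seg q p := by
  ext z
  unfold seg
  simp only [mem_ofPred_eq]
  rw [dist_comm p z, dist_comm z q, dist_comm p q, add_comm]

/-- Description of the points of a segment. -/
lemma of_mem_seg {x y z : Leaf} {s u v : ℝ} (hs : s ∈ Icc (0 : ℝ) 1) (hu : u ∈ Icc (0 : ℝ) 1)
    (hv : v ∈ Icc (0 : ℝ) 1) (h : P z v ∈ seg (P x s) (P y u)) :
    (τ x z ≤ v ∧ s ≤ v ∧ v ≤ max (max s u) (τ x y)) ∨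
    (τ y z ≤ v ∧ u ≤ v ∧ v ≤ max (max s u) (τ x y)) := by
  change dist (P x s) (P z v) + dist (P z v) (P y u) = dist (P x s) (P y u) at h
  rw [dist_P hs hv, dist_P hv hu, dist_P hs hu] at h
  set m := max (max s u) (τ x y) with hm
  set α := max (max s v) (τ x z) with hα
  set β := max (max v u) (τ z y) with hβ
  have hs' : s ≤ α := le_max_of_le_left (le_max_left _ _)
  have hvα : v ≤ α := le_max_of_le_left (le_max_right _ _)
  have hvβ : v ≤ β := le_max_of_le_left (le_max_left _ _)
  have hu' : u ≤ β := le_max_of_le_left (le_max_right _ _)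
  have hxα : τ x z ≤ α := le_max_right _ _
  have hyβ : τ z y ≤ β := le_max_right _ _
  have hmle : m ≤ max α β := by
    apply max_le
    · exact max_le (le_max_of_le_left hs') (le_max_of_le_right hu')
    · refine (τ_ultra x z y).trans (max_le ?_ ?_)
      · exact le_max_of_le_left hxα
      · exact le_max_of_le_right hyβ
  have hsum : α + β - v = m := by linarith
  rcases le_total α β with hab | hab
  · rw [max_eq_right hab] at hmle
    have h1 : α = v := by linarith
    left
    rw [← h1]
    exact ⟨hxα, hs', by linarith⟩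
  · rw [max_eq_left hab] at hmle
    have h1 : β = v := by linarith
    right
    rw [← h1]
    refine ⟨?_, hu', by linarith⟩
    rw [τ_comm]; exact hyβ

/-- Indicator function of a set of points of the tree. -/
noncomputable def ind (A : Set Tree) (p : Tree) : ℝ := A.indicator (fun _ => (1 : ℝ)) p

lemma ind_nonneg (A : Set Tree) (p : Tree) : 0 ≤ ind A p :=
  indicator_nonneg (fun _ _ => zero_le_one) p

lemma ind_le_one (A : Set Tree) (p : Tree) : ind A p ≤ 1 := by
  unfold ind
  exact indicator_le' (fun _ _ => le_rfl) (fun _ _ => zero_le_one) p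

lemma ind_of_mem {A : Set Tree} {p : Tree} (h : p ∈ A) : ind A p = 1 := indicator_of_mem h _

lemma ind_of_notMem {A : Set Tree} {p : Tree} (h : p ∉ A) : ind A p = 0 :=
  indicator_of_notMem h _

lemma measurable_ind {A : Set Tree} (hA : IsClosed A) (x : Leaf) :
    Measurable fun v => ind A (P x v) := by
  have h : (fun v => ind A (P x v)) =
      ((fun v => P x v) ⁻¹' A).indicator (fun _ => (1 : ℝ)) := by
    funext v
    by_cases hv : P x v ∈ A
    · rw [ind_of_mem hv, indicator_of_mem (by exact hv)]
    · rw [ind_of_notMem hv, indicator_of_notMem (by exact hv)]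
  rw [h]
  exact measurable_const.indicator (hA.preimage (continuous_P_left x)).measurableSet

lemma intble_ind {A : Set Tree} (hA : IsClosed A) (x : Leaf) (a b : ℝ) :
    IntervalIntegrable (fun v => ind A (P x v)) volume a b := by
  refine (intervalIntegrable_const (c := (1 : ℝ))).mono_fun
    (measurable_ind hA x).aestronglyMeasurable (Eventually.of_forall fun v => ?_)
  simp only [Real.norm_eq_abs, abs_one]
  rw [abs_of_nonneg (ind_nonneg _ _)]
  exact ind_le_one _ _

/-- The total length of the intersection of a segment with the edges of a given level. -/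
lemma length_le (p q : Tree) (n : ℕ) :
    ∑ a : V n, ∑ j : Fin (2 * n + 2),
      ∫ v in t (n + 1)..t n, ind (seg p q) (P (ext a j) v) ≤ dist p q := by
  classical
  obtain ⟨x, s, hs, rfl⟩ := exists_P p
  obtain ⟨y, u, hu, rfl⟩ := exists_P q
  rw [dist_P hs hu]
  set m := max (max s u) (τ x y) with hm
  have hsm : s ≤ m := le_max_of_le_left (le_max_left _ _)
  have hum : u ≤ m := le_max_of_le_left (le_max_right _ _)
  have hle : t (n + 1) ≤ t n := t_antitone (Nat.le_succ n)
  have hint : ∀ (a : V n) (j : Fin (2 * n + 2)), IntervalIntegrable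
      (fun v => ind (seg (P x s) (P y u)) (P (ext a j) v)) volume (t (n + 1)) (t n) :=
    fun a j => intble_ind (isClosed_seg _ _) _ _ _
  have hsum : ∑ a : V n, ∑ j : Fin (2 * n + 2),
      ∫ v in t (n + 1)..t n, ind (seg (P x s) (P y u)) (P (ext a j) v) =
      ∫ v in t (n + 1)..t n, ∑ a : V n, ∑ j : Fin (2 * n + 2),
        ind (seg (P x s) (P y u)) (P (ext a j) v) := by
    rw [intervalIntegral.integral_finsetSum]
    · refine Finset.sum_congr rfl fun a _ => ?_
      rw [intervalIntegral.integral_finsetSum]
      exact fun j _ => hint a j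
    · intro a _
      have h1 := IntervalIntegrable.sum (μ := volume) (a := t (n + 1)) (b := t n) Finset.univ
        (f := fun j v => ind (seg (P x s) (P y u)) (P (ext a j) v)) (fun j _ => hint a j)
      have h2 : (fun v => ∑ j : Fin (2 * n + 2), ind (seg (P x s) (P y u)) (P (ext a j) v)) =
          ∑ j : Fin (2 * n + 2), fun v => ind (seg (P x s) (P y u)) (P (ext a j) v) := by
        funext v
        rw [Finset.sum_apply]
      rw [h2]
      exact h1
  rw [hsum]
  set F : ℝ → ℝ → ℝ := fun c => (Icc c m).indicator (fun _ => (1 : ℝ)) with hF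
  have hFint : ∀ c, Integrable (F c) volume := fun c =>
    (continuous_const.integrableOn_Icc).integrable_indicator measurableSet_Icc
  have hF0 : ∀ c v, 0 ≤ F c v := fun c v => indicator_nonneg (fun _ _ => zero_le_one) v
  have hFI : ∀ c, c ≤ m → ∫ v, F c v = m - c := by
    intro c hc
    rw [hF]
    simp only
    rw [integral_indicator measurableSet_Icc]
    simp [hc]
  have hpt : ∀ v ∈ Ioc (t (n + 1)) (t n), v ≠ t n → ∑ a : V n, ∑ j : Fin (2 * n + 2),
      ind (seg (P x s) (P y u)) (P (ext a j) v) ≤ F s v + F u v := by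
    intro v hv hvn
    have hvlt : v < t n := lt_of_le_of_ne hv.2 hvn
    have hvI : v ∈ Icc (0 : ℝ) 1 := ⟨(t_pos _).le.trans hv.1.le, hv.2.trans (t_le_one _)⟩
    have hterm : ∀ (a : V n) (j : Fin (2 * n + 2)), ind (seg (P x s) (P y u)) (P (ext a j) v) ≤
        (if a = res' x n then (if j = x n then F s v else 0) else 0) +
        (if a = res' y n then (if j = y n then F u v else 0) else 0) := by
      intro a j
      have hA0 : 0 ≤ (if a = res' x n then (if j = x n then F s v else 0) else 0) := by
        split_ifs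
        · exact hF0 _ _
        · exact le_rfl
        · exact le_rfl
      have hB0 : 0 ≤ (if a = res' y n then (if j = y n then F u v else 0) else 0) := by
        split_ifs
        · exact hF0 _ _
        · exact le_rfl
        · exact le_rfl
      by_cases hmem : P (ext a j) v ∈ seg (P x s) (P y u)
      · rw [ind_of_mem hmem]
        rcases of_mem_seg hs hu hvI hmem with ⟨h1, h2, h3⟩ | ⟨h1, h2, h3⟩
        · obtain ⟨e1, e2⟩ := eq_of_agree (agree_of_τ_lt (h1.trans_lt hvlt))
          have h4 : F s v = 1 := indicator_of_mem (show v ∈ Icc s m from ⟨h2, h3⟩) _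
          rw [if_pos e1, if_pos e2, h4]
          linarith
        · obtain ⟨e1, e2⟩ := eq_of_agree (agree_of_τ_lt (h1.trans_lt hvlt))
          have h4 : F u v = 1 := indicator_of_mem (show v ∈ Icc u m from ⟨h2, h3⟩) _
          rw [if_pos e1, if_pos e2, h4]
          linarith
      · rw [ind_of_notMem hmem]
        linarith
    refine (Finset.sum_le_sum fun a _ => Finset.sum_le_sum fun j _ => hterm a j).trans ?_
    simp only [Finset.sum_add_distrib]
    simp
  rw [intervalIntegral.integral_of_le hle]
  calc ∫ v in Ioc (t (n + 1)) (t n), ∑ a : V n, ∑ j : Fin (2 * n + 2),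
        ind (seg (P x s) (P y u)) (P (ext a j) v)
      ≤ ∫ v in Ioc (t (n + 1)) (t n), (F s v + F u v) := by
        apply integral_mono_ae
        · have h1 : IntervalIntegrable (fun v => ∑ a : V n, ∑ j : Fin (2 * n + 2),
              ind (seg (P x s) (P y u)) (P (ext a j) v)) volume (t (n + 1)) (t n) := by
            have h2 := IntervalIntegrable.sum (μ := volume) (a := t (n + 1)) (b := t n)
              (Finset.univ : Finset (V n × Fin (2 * n + 2)))
              (f := fun p v => ind (seg (P x s) (P y u)) (P (ext p.1 p.2) v))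
              (fun p _ => hint p.1 p.2)
            have h3 : (fun v => ∑ a : V n, ∑ j : Fin (2 * n + 2),
                ind (seg (P x s) (P y u)) (P (ext a j) v)) =
                ∑ p : V n × Fin (2 * n + 2),
                  fun v => ind (seg (P x s) (P y u)) (P (ext p.1 p.2) v) := by
              funext v
              rw [Finset.sum_apply, ← Finset.univ_product_univ, Finset.sum_product]
            rw [h3]
            exact h2
          exact (intervalIntegrable_iff_integrableOn_Ioc_of_le hle).mp h1
        · exact ((hFint s).add (hFint u)).integrableOn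
        · rw [Filter.EventuallyLE, ae_restrict_iff' measurableSet_Ioc]
          have h0 : ∀ᵐ v : ℝ, v ≠ t n := by
            rw [ae_iff]
            simp
          filter_upwards [h0] with v hv hv2
          exact hpt v hv2 hv
    _ ≤ ∫ v, (F s v + F u v) := by
        apply setIntegral_le_integral ((hFint s).add (hFint u))
        exact Eventually.of_forall fun v => add_nonneg (hF0 _ _) (hF0 _ _)
    _ = 2 * m - s - u := by
        rw [integral_add (hFint s) (hFint u), hFI s hsm, hFI u hum]
        ring

/-! ### The slope field -/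

lemma lip_P (x : Leaf) : LipschitzWith 1 fun s : ℝ => P x s := by
  have h1 : Isometry fun s : Icc (0 : ℝ) 1 => P x s := by
    apply Isometry.of_dist_eq
    intro a b
    rw [dist_P_same x a.2 b.2]; rfl
  have h2 : (fun s : ℝ => P x s) = (fun s : Icc (0 : ℝ) 1 => P x s) ∘
      (projIcc 0 1 zero_le_one) := by
    funext s
    unfold P
    simp
  rw [h2]
  have h3 := h1.lipschitz.comp (LipschitzWith.projIcc (h := (zero_le_one : (0 : ℝ) ≤ 1)))
  simpa using h3

/-- The slopes of `f` restricted to `A`. -/
noncomputable def slp (A : Set Tree) (f : Tree → ℝ) (x : Leaf) (v : ℝ) : ℝ :=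
  ind A (P x v) * deriv (fun r => f (P x r)) v

lemma abs_slp_le {A : Set Tree} {f : Tree → ℝ} (hf : ∀ p q, |f p - f q| ≤ dist p q)
    (x : Leaf) (v : ℝ) : |slp A f x v| ≤ ind A (P x v) := by
  unfold slp
  rw [abs_mul, abs_of_nonneg (ind_nonneg _ _)]
  have h1 : LipschitzWith 1 f := by
    apply LipschitzWith.of_dist_le_mul
    intro p q
    rw [Real.dist_eq]
    simpa using hf p q
  have h2 : LipschitzWith 1 fun r => f (P x r) := by
    have := h1.comp (lip_P x)
    rwa [one_mul] at this
  have h3 := norm_deriv_le_of_lipschitz (x₀ := v) h2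
  rw [Real.norm_eq_abs] at h3
  calc ind A (P x v) * |deriv (fun r => f (P x r)) v| ≤ ind A (P x v) * 1 := by
        apply mul_le_mul_of_nonneg_left _ (ind_nonneg _ _)
        simpa using h3
    _ = _ := mul_one _

lemma slope_slp {A : Set Tree} (hA : IsClosed A) {f : Tree → ℝ}
    (hf : ∀ p q, |f p - f q| ≤ dist p q) : Slope (slp A f) where
  meas x := (measurable_ind hA x).mul (measurable_deriv _)
  bdd x v := (abs_slp_le hf x v).trans (ind_le_one _ _)
  cons x y s h := by
    unfold slp
    rw [P_eq' h.le]
    congr 1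
    apply Filter.EventuallyEq.deriv_eq
    filter_upwards [lt_mem_nhds h] with r hr
    rw [P_eq' hr.le]

/-- The main property of the slope field. -/
lemma slp_sub {A : Set Tree} (hA : IsClosed A) {f : Tree → ℝ}
    (hf : ∀ p q, |f p - f q| ≤ dist p q) {p q : Tree} {e : ℝ} (he : e * e = 1)
    (hpq : e * (f p - f q) = dist p q) :
    0 ≤ e * (fn (slp A f) p - fn (slp A f) q) ∧
      (seg p q ⊆ A → e * (fn (slp A f) p - fn (slp A f) q) = dist p q) := by
  have hθ := slope_slp hA hf
  have habs : ∀ p q : Tree, e * (f p - f q) ≤ dist p q := by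
    intro p q
    have h1 : |e| = 1 := by
      have h2 : |e| * |e| = 1 := by rw [← abs_mul, he, abs_one]
      nlinarith [abs_nonneg e]
    calc e * (f p - f q) ≤ |e * (f p - f q)| := le_abs_self _
      _ = |f p - f q| := by rw [abs_mul, h1, one_mul]
      _ ≤ dist p q := hf p q
  have hseg : ∀ z ∈ seg p q, e * (f p - f z) = dist p z ∧ e * (f z - f q) = dist z q := by
    intro z hz
    have h1 := habs p z
    have h2 := habs z q
    have h3 : dist p z + dist z q = dist p q := hz
    constructor <;> nlinarith
  obtain ⟨x, s, hs, rfl⟩ := exists_P p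
  obtain ⟨y, u, hu, rfl⟩ := exists_P q
  set m := max (max s u) (τ x y) with hm
  have hsm : s ≤ m := le_max_of_le_left (le_max_left _ _)
  have hum : u ≤ m := le_max_of_le_left (le_max_right _ _)
  have hτm : τ x y ≤ m := le_max_right _ _
  have hm1 : m ≤ 1 := max_le (max_le hs.2 hu.2) (τ_le_one _ _)
  have hm' : m = max (max u s) (τ y x) := by rw [hm, max_comm s u, τ_comm]
  have hsegx : ∀ v, s ≤ v → v ≤ m → P x v ∈ seg (P x s) (P y u) := fun v h1 h2 =>
    mem_seg_left hs hu h1 h2
  have hsegy : ∀ v, u ≤ v → v ≤ m → P y v ∈ seg (P x s) (P y u) := fun v h1 h2 => by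
    rw [seg_comm]
    exact mem_seg_left hu hs h1 (by rw [← hm']; exact h2)
  -- slopes on the two rays
  have hx : ∀ v ∈ Ioo s m, deriv (fun r => f (P x r)) v = -e := by
    intro v hv
    have h1 : (fun r => f (P x r)) =ᶠ[𝓝 v] fun r => f (P x s) - e * (r - s) := by
      filter_upwards [Ioo_mem_nhds hv.1 hv.2] with r hr
      have h2 := (hseg _ (hsegx r hr.1.le hr.2.le)).1
      rw [dist_P_same x hs ⟨hs.1.trans hr.1.le, hr.2.le.trans hm1⟩,
        abs_of_nonpos (by linarith [hr.1])] at h2
      have h3 : e * (e * (f (P x s) - f (P x r))) = f (P x s) - f (P x r) := by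
        rw [← mul_assoc, he, one_mul]
      rw [h2] at h3
      linarith
    rw [h1.deriv_eq]
    have h4 : HasDerivAt (fun r => f (P x s) - e * (r - s)) (-(e * 1)) v := by
      have := ((hasDerivAt_id v).sub_const s).const_mul e
      exact this.const_sub _
    rw [h4.deriv, mul_one]
  have hy : ∀ v ∈ Ioo u m, deriv (fun r => f (P y r)) v = e := by
    intro v hv
    have h1 : (fun r => f (P y r)) =ᶠ[𝓝 v] fun r => f (P y u) + e * (r - u) := by
      filter_upwards [Ioo_mem_nhds hv.1 hv.2] with r hr
      have h2 := (hseg _ (hsegy r hr.1.le hr.2.le)).2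
      rw [dist_P_same y ⟨hu.1.trans hr.1.le, hr.2.le.trans hm1⟩ hu,
        abs_of_nonneg (by linarith [hr.1])] at h2
      have h3 : e * (e * (f (P y r) - f (P y u))) = f (P y r) - f (P y u) := by
        rw [← mul_assoc, he, one_mul]
      rw [h2] at h3
      linarith
    rw [h1.deriv_eq]
    have h4 : HasDerivAt (fun r => f (P y u) + e * (r - u)) (e * 1) v := by
      have := ((hasDerivAt_id v).sub_const u).const_mul e
      exact this.const_add _
    rw [h4.deriv, mul_one]
  have hIx : ∫ v in s..m, slp A f x v = -e * ∫ v in s..m, ind A (P x v) := by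
    rw [← intervalIntegral.integral_const_mul]
    apply intervalIntegral.integral_congr_ae
    have h0 : ∀ᵐ v : ℝ, v ≠ m := by
      rw [ae_iff]
      simp
    filter_upwards [h0] with v hv hv2
    rw [uIoc_of_le hsm] at hv2
    unfold slp
    rw [hx v ⟨hv2.1, lt_of_le_of_ne hv2.2 hv⟩]
    ring
  have hIy : ∫ v in u..m, slp A f y v = e * ∫ v in u..m, ind A (P y v) := by
    rw [← intervalIntegral.integral_const_mul]
    apply intervalIntegral.integral_congr_ae
    have h0 : ∀ᵐ v : ℝ, v ≠ m := by
      rw [ae_iff]
      simp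
    filter_upwards [h0] with v hv hv2
    rw [uIoc_of_le hum] at hv2
    unfold slp
    rw [hy v ⟨hv2.1, lt_of_le_of_ne hv2.2 hv⟩]
    ring
  have h1 := hθ.prim_sub x s m
  have h2 := hθ.prim_sub y u m
  have h3 := hθ.prim_congr hτm hm1
  have hmain : e * (fn (slp A f) (P x s) - fn (slp A f) (P y u)) =
      (∫ v in s..m, ind A (P x v)) + ∫ v in u..m, ind A (P y v) := by
    rw [hθ.fn_P x hs, hθ.fn_P y hu]
    rw [hIx] at h1
    rw [hIy] at h2
    have h4 : prim (slp A f) x s - prim (slp A f) y u =
        e * ((∫ v in s..m, ind A (P x v)) + ∫ v in u..m, ind A (P y v)) := by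
      rw [h3] at h1
      linear_combination h1 - h2
    rw [h4, ← mul_assoc, he, one_mul]
  rw [hmain]
  constructor
  · apply add_nonneg
    · exact intervalIntegral.integral_nonneg hsm fun v _ => ind_nonneg _ _
    · exact intervalIntegral.integral_nonneg hum fun v _ => ind_nonneg _ _
  · intro hsub
    have h5 : ∫ v in s..m, ind A (P x v) = m - s := by
      have h6 : ∫ v in s..m, ind A (P x v) = ∫ v in s..m, (1 : ℝ) := by
        apply intervalIntegral.integral_congr
        intro v hv
        rw [uIcc_of_le hsm] at hv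
        exact ind_of_mem (hsub (hsegx v hv.1 hv.2))
      rw [h6]; simp
    have h7 : ∫ v in u..m, ind A (P y v) = m - u := by
      have h6 : ∫ v in u..m, ind A (P y v) = ∫ v in u..m, (1 : ℝ) := by
        apply intervalIntegral.integral_congr
        intro v hv
        rw [uIcc_of_le hum] at hv
        exact ind_of_mem (hsub (hsegy v hv.1 hv.2))
      rw [h6]; simp
    rw [h5, h7, dist_P hs hu, ← hm]
    ring

/-- The contribution of `w n`. -/
lemma evalL_w_le {A : Set Tree} (hA : IsClosed A) {f : Tree → ℝ}
    (hf : ∀ p q, |f p - f q| ≤ dist p q) (n : ℕ) :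
    |evalL (fnL (slp A f) (slope_slp hA hf)) (w n)| ≤
      ∑ a : V n, ∑ j : Fin (2 * n + 2), ∫ v in t (n + 1)..t n, ind A (P (ext a j) v) := by
  have hθ := slope_slp hA hf
  have hle : t (n + 1) ≤ t n := t_antitone (Nat.le_succ n)
  rw [evalL_w]
  refine (Finset.abs_sum_le_sum_abs _ _).trans (Finset.sum_le_sum fun a _ => ?_)
  refine (Finset.abs_sum_le_sum_abs _ _).trans (Finset.sum_le_sum fun j _ => ?_)
  rw [abs_mul, abs_sg, one_mul]
  change |fn (slp A f) (vert a j) - fn (slp A f) (par a j)| ≤ _
  unfold vert par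
  rw [hθ.fn_P _ (t_mem _), hθ.fn_P _ (t_mem _), hθ.prim_sub, abs_neg, ← Real.norm_eq_abs]
  apply intervalIntegral.norm_integral_le_of_norm_le hle
  · exact Eventually.of_forall fun v _ => abs_slp_le hf _ _
  · exact intble_ind hA _ _ _

theorem condA : CondA (range w) := by
  classical
  intro ε hε
  refine ⟨ε, hε, fun N a x y hxy hγ I hI => ?_⟩
  rw [← sub_le_iff_le_add']
  refine (Metric.le_infDist (range_nonempty w)).mpr ?_
  rintro _ ⟨n, rfl⟩
  rw [dist_eq_norm]
  set γ := ∑ i, a i • mol root (x i) (y i) with hγdef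
  obtain ⟨φ, hφ1, hφ2⟩ := exists_dual_vector'' ℝ γ
  have hf := fOf_lip hφ1
  -- the value of a functional at a molecule
  have hmol : ∀ (ψ : Free root →L[ℝ] ℝ) (p q : Tree),
      ψ (mol root p q) = (dist p q)⁻¹ * (ψ (dlt root p) - ψ (dlt root q)) := by
    intro ψ p q
    unfold mol
    rw [map_smul, map_sub, smul_eq_mul]
  have hdpos : ∀ i, 0 < dist (x i) (y i) := fun i => dist_pos.mpr (hxy i)
  -- every summand is normed by `f`
  have hterm : ∀ i, a i * ((dist (x i) (y i))⁻¹ * (fOf φ (x i) - fOf φ (y i))) ≤ |a i| := by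
    intro i
    refine (le_abs_self _).trans ?_
    rw [abs_mul, abs_mul, abs_of_pos (inv_pos.mpr (hdpos i))]
    have h1 := hf (x i) (y i)
    have h2 : (dist (x i) (y i))⁻¹ * |fOf φ (x i) - fOf φ (y i)| ≤ 1 := by
      rw [inv_mul_le_iff₀ (hdpos i), mul_one]; exact h1
    calc |a i| * ((dist (x i) (y i))⁻¹ * |fOf φ (x i) - fOf φ (y i)|) ≤ |a i| * 1 := by
          gcongr
      _ = |a i| := mul_one _
  have hsum : ∑ i, a i * ((dist (x i) (y i))⁻¹ * (fOf φ (x i) - fOf φ (y i))) = ∑ i, |a i| := by
    rw [← hγ]
    have h1 : φ γ = ‖γ‖ := by simpa using hφ2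
    rw [← h1, hγdef, map_sum]
    refine Finset.sum_congr rfl fun i _ => ?_
    rw [map_smul, smul_eq_mul, hmol]
    rfl
  have heq : ∀ i, a i * ((dist (x i) (y i))⁻¹ * (fOf φ (x i) - fOf φ (y i))) = |a i| := by
    intro i
    exact (Finset.sum_eq_sum_iff_of_le fun i _ => hterm i).mp hsum i (Finset.mem_univ i)
  -- the set
  set A : Set Tree := ⋃ i ∈ I, seg (x i) (y i) with hAdef
  have hA : IsClosed A := isClosed_biUnion_finset fun i _ => isClosed_seg _ _
  set g := fnL (slp A (fOf φ)) (slope_slp hA hf) with hg
  have hgn : ‖g‖ ≤ 1 := (slope_slp hA hf).norm_fnL_le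
  have hgterm : ∀ i, 0 ≤ a i * evalL g (mol root (x i) (y i)) ∧
      (i ∈ I → a i * evalL g (mol root (x i) (y i)) = |a i|) := by
    intro i
    rcases eq_or_ne (a i) 0 with h0 | h0
    · rw [h0]; simp
    · set e : ℝ := ((SignType.sign (a i) : SignType) : ℝ) with he
      have hea : e * |a i| = a i := sign_mul_abs (a i)
      have hee : e * e = 1 := by
        rcases lt_or_gt_of_ne h0 with h | h
        · rw [he, sign_neg h]; norm_num
        · rw [he, sign_pos h]; norm_num
      have hpos : 0 < |a i| := abs_pos.mpr h0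
      have hpq : e * (fOf φ (x i) - fOf φ (y i)) = dist (x i) (y i) := by
        have h1 := heq i
        have h2 : |a i| * (e * ((dist (x i) (y i))⁻¹ * (fOf φ (x i) - fOf φ (y i)))) =
            |a i| * 1 := by
          rw [mul_one, ← h1]
          nth_rewrite 2 [← hea]
          rw [h1]
          linear_combination (-(e * |a i|) + |a i| * e) *
            ((dist (x i) (y i))⁻¹ * (fOf φ (x i) - fOf φ (y i)))
        have h3 := mul_left_cancel₀ hpos.ne' h2
        have h4 := (hdpos i).ne'
        field_simp at h3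
        linarith
      obtain ⟨h1, h2⟩ := slp_sub hA hf hee hpq
      have h3 : a i * evalL g (mol root (x i) (y i)) = |a i| * ((dist (x i) (y i))⁻¹ *
          (e * (fn (slp A (fOf φ)) (x i) - fn (slp A (fOf φ)) (y i)))) := by
        rw [hmol, evalL_dlt, evalL_dlt]
        change a i * ((dist (x i) (y i))⁻¹ * (fn (slp A (fOf φ)) (x i) -
          fn (slp A (fOf φ)) (y i))) = _
        nth_rewrite 1 [← hea]
        ring
      rw [h3]
      constructor
      · have := (inv_pos.mpr (hdpos i)).le
        positivity
      · intro hi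
        rw [h2 (by
          rw [hAdef]
          exact subset_biUnion_of_mem (u := fun i => seg (x i) (y i)) hi),
          inv_mul_cancel₀ (hdpos i).ne', mul_one]
  have hγg : ∑ i ∈ I, |a i| ≤ evalL g γ := by
    rw [hγdef, map_sum]
    simp only [map_smul, smul_eq_mul]
    calc ∑ i ∈ I, |a i| = ∑ i ∈ I, a i * evalL g (mol root (x i) (y i)) :=
          Finset.sum_congr rfl fun i hi => ((hgterm i).2 hi).symm
      _ ≤ ∑ i, a i * evalL g (mol root (x i) (y i)) :=
          Finset.sum_le_sum_of_subset_of_nonneg (Finset.subset_univ I)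
            fun i _ _ => (hgterm i).1
  have hwg : |evalL g (w n)| ≤ ε := by
    refine (evalL_w_le hA hf n).trans ?_
    have hle : t (n + 1) ≤ t n := t_antitone (Nat.le_succ n)
    calc ∑ b : V n, ∑ j : Fin (2 * n + 2), ∫ v in t (n + 1)..t n, ind A (P (ext b j) v)
        ≤ ∑ b : V n, ∑ j : Fin (2 * n + 2), ∑ i ∈ I,
            ∫ v in t (n + 1)..t n, ind (seg (x i) (y i)) (P (ext b j) v) := by
          refine Finset.sum_le_sum fun b _ => Finset.sum_le_sum fun j _ => ?_
          rw [← intervalIntegral.integral_finsetSum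
            (fun i _ => intble_ind (isClosed_seg _ _) _ _ _)]
          apply intervalIntegral.integral_mono_on hle (intble_ind hA _ _ _)
          · have h2 := IntervalIntegrable.sum (μ := volume) (a := t (n + 1)) (b := t n) I
              (f := fun i v => ind (seg (x i) (y i)) (P (ext b j) v))
              (fun i _ => intble_ind (isClosed_seg _ _) _ _ _)
            have h3 : (fun v => ∑ i ∈ I, ind (seg (x i) (y i)) (P (ext b j) v)) =
                ∑ i ∈ I, fun v => ind (seg (x i) (y i)) (P (ext b j) v) := by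
              funext v
              rw [Finset.sum_apply]
            rw [h3]
            exact h2
          · intro v _
            by_cases hmem : P (ext b j) v ∈ A
            · rw [ind_of_mem hmem]
              rw [hAdef] at hmem
              simp only [mem_iUnion, exists_prop] at hmem
              obtain ⟨i, hi, hmi⟩ := hmem
              rw [← ind_of_mem hmi]
              exact Finset.single_le_sum (f := fun i => ind (seg (x i) (y i)) (P (ext b j) v))
                (fun i _ => ind_nonneg _ _) hi
            · rw [ind_of_notMem hmem]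
              exact Finset.sum_nonneg fun i _ => ind_nonneg _ _
      _ = ∑ i ∈ I, ∑ b : V n, ∑ j : Fin (2 * n + 2),
            ∫ v in t (n + 1)..t n, ind (seg (x i) (y i)) (P (ext b j) v) :=
           (Finset.sum_congr rfl fun b _ => Finset.sum_comm).trans Finset.sum_comm
      _ ≤ ∑ i ∈ I, dist (x i) (y i) := Finset.sum_le_sum fun i _ => length_le _ _ _
      _ ≤ ε := hI.le
  have hnorm : evalL g (γ - w n) ≤ ‖γ - w n‖ := by
    have h1 : ‖(γ - w n : Free root)‖ = ‖incl (γ - w n)‖ := rfl
    rw [h1]
    calc evalL g (γ - w n) ≤ ‖evalL g (γ - w n)‖ := le_abs_self _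
      _ = ‖incl (γ - w n) g‖ := rfl
      _ ≤ ‖incl (γ - w n)‖ * ‖g‖ := ContinuousLinearMap.le_opNorm _ _
      _ ≤ ‖incl (γ - w n)‖ * 1 := by gcongr
      _ = _ := mul_one _
  rw [map_sub] at hnorm
  have h2 := le_abs_self (evalL g (w n))
  linarith

end Pool.Agent.H58.FreeTree
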