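import Mathlib

open Set Topology
open scoped NNReal

namespace Pool.Agent.H58.FreeTree

/-! ### `ℝ`-trees -/

/-- `A` is an arc in `T` with endpoints `x` and `y`: the image of a continuous injective map
`[0, 1] → T` from `x` to `y`. -/
def IsArc {T : Type*} [TopologicalSpace T] (A : Set T) (x y : T) : Prop :=
  ∃ γ : unitInterval → T, Continuous γ ∧ Function.Injective γ ∧ γ 0 = x ∧ γ 1 = y ∧ range γ = A

/-- `T` is an `ℝ`-tree: any two distinct points `x, y` are joined by a unique arc, and this arc is
isometric to `[0, dist x y]`. -/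
structure IsRTree (T : Type*) [MetricSpace T] : Prop where
  existsUnique_arc : ∀ x y : T, x ≠ y → ∃! A : Set T, IsArc A x y
  arc_isometric : ∀ x y : T, x ≠ y → ∀ A : Set T, IsArc A x y →
    ∃ φ : Icc (0 : ℝ) (dist x y) → T, Isometry φ ∧ range φ = A

/-! ### Lipschitz free spaces -/

section Free

variable {M : Type*} [MetricSpace M]

/-- The Lipschitz functions on `M` that vanish at the base point `o`, as a space of functions. -/
def lip0 (o : M) : Submodule ℝ (M → ℝ) where
  carrier := {f | f o = 0 ∧ ∃ C : ℝ, 0 ≤ C ∧ ∀ x y, |f x - f y| ≤ C * dist x y}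
  zero_mem' := ⟨rfl, 0, le_rfl, fun x y => by simp⟩
  add_mem' := by
    rintro f g ⟨hf, C, hC, hfC⟩ ⟨hg, D, hD, hgD⟩
    refine ⟨by simp [hf, hg], C + D, by positivity, fun x y => ?_⟩
    have h1 : (f + g) x - (f + g) y = (f x - f y) + (g x - g y) := by
      simp only [Pi.add_apply]; ring
    rw [h1, add_mul]
    exact (abs_add_le _ _).trans (add_le_add (hfC x y) (hgD x y))
  smul_mem' := by
    rintro c f ⟨hf, C, hC, hfC⟩
    refine ⟨by simp [hf], |c| * C, by positivity, fun x y => ?_⟩
    have h1 : (c • f) x - (c • f) y = c * (f x - f y) := by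
      simp only [Pi.smul_apply, smul_eq_mul]; ring
    rw [h1, abs_mul, mul_assoc]
    exact mul_le_mul_of_nonneg_left (hfC x y) (abs_nonneg c)

/-- The space `Lip₀(M)`. -/
def Lip0 (o : M) : Type _ := lip0 o

/-- Pointwise operations on `Lip₀(M)`. -/
@[reducible] noncomputable def lip0Group (o : M) : AddCommGroup (Lip0 o) :=
  (inferInstance : AddCommGroup (lip0 o))

attribute [local instance] lip0Group in
/-- Pointwise operations on `Lip₀(M)`. -/
@[reducible] noncomputable def lip0Module (o : M) : Module ℝ (Lip0 o) :=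
  (inferInstance : Module ℝ (lip0 o))

/-- The least Lipschitz constant of `f`. -/
noncomputable def lipConst (f : M → ℝ) : ℝ :=
  sInf {C : ℝ | 0 ≤ C ∧ ∀ x y, |f x - f y| ≤ C * dist x y}

variable {o : M}

/-- `Lip₀(M)` is normed by the least Lipschitz constant. -/
noncomputable instance : Norm (Lip0 o) := ⟨fun f => lipConst f.1⟩

lemma norm_def (f : Lip0 o) : ‖f‖ = lipConst f.1 := rfl

lemma lipConst_nonneg (f : M → ℝ) : 0 ≤ lipConst f := Real.sInf_nonneg fun _ h => h.1

lemma lipConst_le {f : M → ℝ} {C : ℝ} (hC : 0 ≤ C) (h : ∀ x y, |f x - f y| ≤ C * dist x y) :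
    lipConst f ≤ C :=
  csInf_le ⟨0, fun _ h => h.1⟩ ⟨hC, h⟩

lemma abs_sub_le_norm (f : Lip0 o) (x y : M) : |f.1 x - f.1 y| ≤ ‖f‖ * dist x y := by
  rcases eq_or_ne x y with rfl | hxy
  · simp
  · have hd : 0 < dist x y := dist_pos.mpr hxy
    rw [norm_def, ← div_le_iff₀ hd]
    obtain ⟨C, hC⟩ := f.2.2
    refine le_csInf ⟨C, hC⟩ fun D hD => ?_
    rw [div_le_iff₀ hd]
    exact hD.2 x y

lemma norm_le_of_lip {f : Lip0 o} {C : ℝ} (hC : 0 ≤ C)
    (h : ∀ x y, |f.1 x - f.1 y| ≤ C * dist x y) : ‖f‖ ≤ C :=
  lipConst_le hC h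

attribute [local instance] lip0Group lip0Module in
/-- `Lip₀(M)` with its norm is a normed space. -/
lemma lip0Core (o : M) : NormedSpace.Core ℝ (Lip0 o) where
  norm_nonneg f := lipConst_nonneg _
  norm_smul c f := by
    have h1 : ∀ x y, (c • f).1 x - (c • f).1 y = c * (f.1 x - f.1 y) := by
      intro x y
      change c * f.1 x - c * f.1 y = _
      ring
    rw [Real.norm_eq_abs]
    apply le_antisymm
    · apply norm_le_of_lip (mul_nonneg (abs_nonneg _) (lipConst_nonneg _))
      intro x y
      rw [h1, abs_mul, mul_assoc]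
      exact mul_le_mul_of_nonneg_left (abs_sub_le_norm f x y) (abs_nonneg c)
    · rcases eq_or_ne c 0 with rfl | hc
      · rw [abs_zero, zero_mul]
        exact lipConst_nonneg _
      · have hc' : 0 < |c| := abs_pos.mpr hc
        rw [← le_div_iff₀' hc']
        apply norm_le_of_lip (div_nonneg (lipConst_nonneg _) hc'.le)
        intro x y
        have h2 := abs_sub_le_norm (c • f) x y
        rw [h1, abs_mul] at h2
        rw [div_mul_eq_mul_div, le_div_iff₀' hc']
        exact h2
  norm_triangle f g := by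
    apply norm_le_of_lip (add_nonneg (lipConst_nonneg _) (lipConst_nonneg _))
    intro x y
    have h1 : (f + g).1 x - (f + g).1 y = (f.1 x - f.1 y) + (g.1 x - g.1 y) := by
      change (f.1 x + g.1 x) - (f.1 y + g.1 y) = _
      ring
    rw [h1, add_mul]
    exact (abs_add_le _ _).trans (add_le_add (abs_sub_le_norm f x y) (abs_sub_le_norm g x y))
  norm_eq_zero_iff f := by
    constructor
    · intro h
      apply Subtype.ext
      funext x
      have h1 := abs_sub_le_norm f x o
      rw [h, zero_mul, f.2.1, sub_zero] at h1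
      have h2 : f.1 x = 0 := by simpa using h1
      exact h2
    · rintro rfl
      apply le_antisymm _ (lipConst_nonneg _)
      exact norm_le_of_lip le_rfl fun x y => by
        change |(0 : ℝ) - 0| ≤ _
        simp

attribute [local instance] lip0Group lip0Module in
noncomputable instance : NormedAddCommGroup (Lip0 o) := NormedAddCommGroup.ofCore (lip0Core o)

attribute [local instance] lip0Group lip0Module in
noncomputable instance : NormedSpace ℝ (Lip0 o) := NormedSpace.ofCore (lip0Core o)

/-- The dual Banach space `Lip₀(M)*`. -/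
def LipDual (o : M) : Type _ := StrongDual ℝ (Lip0 o)

noncomputable instance : NormedAddCommGroup (LipDual o) :=
  (inferInstance : NormedAddCommGroup (StrongDual ℝ (Lip0 o)))

noncomputable instance : NormedSpace ℝ (LipDual o) :=
  (inferInstance : NormedSpace ℝ (StrongDual ℝ (Lip0 o)))

/-- Evaluation at `x`, an element of the dual `Lip₀(M)*`. -/
noncomputable def delta (o x : M) : LipDual o :=
  LinearMap.mkContinuous
    { toFun := fun f => f.1 x
      map_add' := fun _ _ => rfl
      map_smul' := fun _ _ => rfl } (dist x o) (by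
      intro f
      have h := abs_sub_le_norm f x o
      rw [f.2.1, sub_zero] at h
      rw [Real.norm_eq_abs, mul_comm]
      exact h)

/-- The closed linear span of a set. -/
def closedSpan {E : Type*} [NormedAddCommGroup E] [NormedSpace ℝ E] (A : Set E) :
    Submodule ℝ E :=
  (Submodule.span ℝ A).topologicalClosure

/-- The Lipschitz free space `𝓕(M)`: the closed linear span of `{δ(x) : x ∈ M}` in
`Lip₀(M)*`. -/
def Free (o : M) : Type _ := ↥(closedSpan (range (delta o)))

noncomputable instance : NormedAddCommGroup (Free o) :=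
  (inferInstance : NormedAddCommGroup ↥(closedSpan (range (delta o))))

noncomputable instance : NormedSpace ℝ (Free o) :=
  (inferInstance : NormedSpace ℝ ↥(closedSpan (range (delta o))))

lemma delta_mem (o x : M) : delta o x ∈ closedSpan (range (delta o)) :=
  Submodule.le_topologicalClosure _ (Submodule.subset_span ⟨x, rfl⟩)

/-- `δ(x)` as an element of `𝓕(M)`. -/
noncomputable def dlt (o x : M) : Free o := ⟨delta o x, delta_mem o x⟩

/-- The molecule `m_{xy} = (δ(x) - δ(y)) / d(x, y)`. -/
noncomputable def mol (o x y : M) : Free o := (dist x y)⁻¹ • (dlt o x - dlt o y)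

/-- Condition (a). -/
def CondA (W : Set (Free o)) : Prop :=
  ∀ ε : ℝ, 0 < ε → ∃ d : ℝ, 0 < d ∧ ∀ (n : ℕ) (a : Fin n → ℝ) (x y : Fin n → M),
    (∀ i, x i ≠ y i) → ‖∑ i, a i • mol o (x i) (y i)‖ = ∑ i, |a i| →
      ∀ I : Finset (Fin n), ∑ i ∈ I, dist (x i) (y i) < d →
        ∑ i ∈ I, |a i| ≤ ε + Metric.infDist (∑ i, a i • mol o (x i) (y i)) W

/-- Uniform regularity. Here `closedSpan (dlt o '' A)` is `𝓕(A)`. -/
def UniformlyRegular (W : Set (Free o)) : Prop :=
  ∀ U : Set M, IsOpen U → ∀ ε : ℝ, 0 < ε → ∃ K : Set M, IsCompact K ∧ K ⊆ U ∧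
    ∀ w ∈ W, ∃ v ∈ closedSpan (dlt o '' (K ∪ Uᶜ)), ‖w - v‖ ≤ ε

end Free

/-- Relative weak compactness: the closure of `W` in the weak topology is compact. -/
def RelWeaklyCompact {E : Type*} [NormedAddCommGroup E] [NormedSpace ℝ E] (W : Set E) : Prop :=
  IsCompact (closure (toWeakSpace ℝ E '' W))

end Pool.Agent.H58.FreeTree
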