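import Pool.Agent.H58.FreeTree.Tree

open Set Topology Filter PiNat MeasureTheory

namespace Pool.Agent.H58.FreeTree

lemma P_eq' {x y : Leaf} {s : ℝ} (h : τ x y ≤ s) : P x s = P y s := by
  rcases le_total s 1 with hs | hs
  · exact P_eq ⟨(τ_nonneg x y).trans h, hs⟩ h
  · have h1 : ∀ x : Leaf, P x s = root := by
      intro x
      rw [← P_one x]
      unfold P
      rw [projIcc_of_right_le _ hs, projIcc_right]
    rw [h1, h1]

/-! ### Functions with prescribed slopes -/

/-- A consistent field of slopes. -/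
structure Slope (θ : Leaf → ℝ → ℝ) : Prop where
  meas : ∀ x, Measurable (θ x)
  bdd : ∀ x s, |θ x s| ≤ 1
  cons : ∀ x y s, τ x y < s → θ x s = θ y s

/-- The primitive, normalised to vanish at the root. -/
noncomputable def prim (θ : Leaf → ℝ → ℝ) (x : Leaf) (s : ℝ) : ℝ := -∫ u in s..1, θ x u

section Slope

variable {θ : Leaf → ℝ → ℝ} (hθ : Slope θ)
include hθ

lemma Slope.intble (x : Leaf) (a b : ℝ) : IntervalIntegrable (θ x) volume a b := by
  refine (intervalIntegrable_const (c := (1 : ℝ))).mono_fun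
    (hθ.meas x).aestronglyMeasurable (Eventually.of_forall fun s => ?_)
  simp only [Real.norm_eq_abs, abs_one]
  exact hθ.bdd x s

lemma Slope.prim_sub (x : Leaf) (s m : ℝ) : prim θ x s - prim θ x m = -∫ u in s..m, θ x u := by
  unfold prim
  rw [← intervalIntegral.integral_add_adjacent_intervals (hθ.intble x s m) (hθ.intble x m 1)]
  ring

lemma Slope.abs_prim_sub_le (x : Leaf) {s m : ℝ} (h : s ≤ m) :
    |prim θ x s - prim θ x m| ≤ m - s := by
  rw [hθ.prim_sub, abs_neg]
  have := intervalIntegral.norm_integral_le_of_norm_le_const (a := s) (b := m) (C := 1)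
    (f := θ x) (fun u _ => hθ.bdd x u)
  rw [one_mul, abs_of_nonneg (by linarith)] at this
  exact this

lemma Slope.prim_congr {x y : Leaf} {m : ℝ} (hm : τ x y ≤ m) (hm1 : m ≤ 1) :
    prim θ x m = prim θ y m := by
  unfold prim
  congr 1
  apply intervalIntegral.integral_congr_ae
  apply Eventually.of_forall
  intro u hu
  rw [uIoc_of_le hm1] at hu
  exact hθ.cons x y u (lt_of_le_of_lt hm hu.1)

lemma Slope.prim_lip {x y : Leaf} {s u : ℝ} (hs : s ∈ Icc (0 : ℝ) 1) (hu : u ∈ Icc (0 : ℝ) 1) :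
    |prim θ x s - prim θ y u| ≤ dist (P x s) (P y u) := by
  rw [dist_P hs hu]
  set m := max (max s u) (τ x y) with hm
  have hsm : s ≤ m := le_max_of_le_left (le_max_left _ _)
  have hum : u ≤ m := le_max_of_le_left (le_max_right _ _)
  have hτm : τ x y ≤ m := le_max_right _ _
  have hm1 : m ≤ 1 := max_le (max_le hs.2 hu.2) (τ_le_one _ _)
  have h1 := hθ.abs_prim_sub_le x hsm
  have h2 := hθ.abs_prim_sub_le y hum
  have h3 := hθ.prim_congr hτm hm1
  have h4 : prim θ x s - prim θ y u =
      (prim θ x s - prim θ x m) - (prim θ y u - prim θ y m) := by rw [h3]; ring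
  rw [h4]
  calc |(prim θ x s - prim θ x m) - (prim θ y u - prim θ y m)|
      ≤ |prim θ x s - prim θ x m| + |prim θ y u - prim θ y m| := abs_sub _ _
    _ ≤ _ := by linarith

omit hθ in
/-- The function on the tree with slopes `θ`. -/
noncomputable def fn (θ : Leaf → ℝ → ℝ) (p : Tree) : ℝ :=
  prim θ (exists_P p).choose (exists_P p).choose_spec.choose

lemma Slope.fn_P (x : Leaf) {s : ℝ} (hs : s ∈ Icc (0 : ℝ) 1) : fn θ (P x s) = prim θ x s := by
  unfold fn
  have h1 := (exists_P (P x s)).choose_spec.choose_spec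
  have h2 := hθ.prim_lip (x := (exists_P (P x s)).choose) (y := x) h1.1 hs
  rw [h1.2, dist_self] at h2
  have h3 := abs_nonpos_iff.mp h2
  linarith

lemma Slope.fn_lip (p q : Tree) : |fn θ p - fn θ q| ≤ 1 * dist p q := by
  obtain ⟨x, s, hs, rfl⟩ := exists_P p
  obtain ⟨y, u, hu, rfl⟩ := exists_P q
  rw [hθ.fn_P x hs, hθ.fn_P y hu, one_mul]
  exact hθ.prim_lip hs hu

lemma Slope.fn_root : fn θ root = 0 := by
  rw [← P_one (fun _ => 0), hθ.fn_P _ ⟨zero_le_one, le_rfl⟩]
  unfold prim
  simp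

omit hθ in
/-- The element of `Lip₀` with slopes `θ`. -/
noncomputable def fnL (θ : Leaf → ℝ → ℝ) (hθ : Slope θ) : Lip0 root :=
  ⟨fn θ, hθ.fn_root, 1, zero_le_one, hθ.fn_lip⟩

lemma Slope.norm_fnL_le : ‖fnL θ hθ‖ ≤ 1 := norm_le_of_lip zero_le_one hθ.fn_lip

end Slope

/-! ### The vertices and the elements `w n` -/

/-- Prefixes of length `n`. -/
abbrev V (n : ℕ) := ∀ i : Fin n, Fin (2 * (i : ℕ) + 2)

lemma card_V (n : ℕ) : Fintype.card (V n) = N n := by
  rw [Fintype.card_pi]
  simp only [Fintype.card_fin]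
  rw [Fin.prod_univ_eq_prod_range (fun i => 2 * i + 2)]
  induction n with
  | zero => rfl
  | succ n ih => rw [Finset.prod_range_succ, ih, N_succ]

/-- The leaf with prefix `u`, next digit `j` and then zeros. -/
def ext {n : ℕ} (u : V n) (j : Fin (2 * n + 2)) : Leaf := fun i =>
  if h : i < n then u ⟨i, h⟩ else if h' : i = n then h' ▸ j else 0

lemma ext_lt {n : ℕ} (u : V n) (j : Fin (2 * n + 2)) {i : ℕ} (h : i < n) :
    ext u j i = u ⟨i, h⟩ := by
  unfold ext; rw [dif_pos h]

lemma ext_eq {n : ℕ} (u : V n) (j : Fin (2 * n + 2)) : ext u j n = j := by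
  unfold ext; rw [dif_neg (lt_irrefl n), dif_pos rfl]

/-- Restriction of a leaf to its first `n` digits. -/
def res' (x : Leaf) (n : ℕ) : V n := fun i => x i

lemma ext_agree {n : ℕ} (x : Leaf) : ∀ i < n + 1, ext (res' x n) (x n) i = x i := by
  intro i hi
  rcases Nat.lt_succ_iff_lt_or_eq.mp hi with h | h
  · rw [ext_lt _ _ h]; rfl
  · subst h; exact ext_eq _ _

lemma eq_of_agree {n : ℕ} {u : V n} {j : Fin (2 * n + 2)} {x : Leaf}
    (h : ∀ i < n + 1, x i = ext u j i) : u = res' x n ∧ j = x n := by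
  constructor
  · funext i
    have := h i (by omega)
    rw [ext_lt u j i.2] at this
    exact this.symm
  · have := h n (by omega)
    rw [ext_eq] at this
    exact this.symm

/-- The vertex at level `n + 1` given by the prefix `u` and the digit `j`. -/
noncomputable def vert {n : ℕ} (u : V n) (j : Fin (2 * n + 2)) : Tree := P (ext u j) (t (n + 1))

/-- Its parent. -/
noncomputable def par {n : ℕ} (u : V n) (j : Fin (2 * n + 2)) : Tree := P (ext u j) (t n)

lemma t_mem (n : ℕ) : t n ∈ Icc (0 : ℝ) 1 := ⟨(t_pos n).le, t_le_one n⟩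

lemma par_eq {n : ℕ} (u : V n) (j j' : Fin (2 * n + 2)) : par u j = par u j' := by
  apply P_eq (t_mem n)
  apply τ_le_of_agree
  intro i hi
  rw [ext_lt _ _ hi, ext_lt _ _ hi]

lemma dist_vert_par {n : ℕ} (u : V n) (j : Fin (2 * n + 2)) :
    dist (vert u j) (par u j) = t n - t (n + 1) := by
  unfold vert par
  rw [dist_P_same _ (t_mem _) (t_mem _), abs_sub_comm, abs_of_nonneg]
  have := t_antitone (Nat.le_succ n)
  simp only [Nat.succ_eq_add_one] at this
  linarith

/-- The sign of the `j`-th child. -/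
def sg {k : ℕ} (j : Fin k) : ℝ := (-1) ^ (j : ℕ)

lemma sg_sq {k : ℕ} (j : Fin k) : sg j * sg j = 1 := by
  unfold sg
  rw [← mul_pow]; norm_num

lemma abs_sg {k : ℕ} (j : Fin k) : |sg j| = 1 := by
  unfold sg
  rw [abs_pow, abs_neg, abs_one, one_pow]

lemma sum_sg (n : ℕ) : ∑ j : Fin (2 * n + 2), sg j = 0 := by
  unfold sg
  rw [Fin.sum_univ_eq_sum_range (fun i => (-1 : ℝ) ^ i) (2 * n + 2)]
  induction n with
  | zero => norm_num [Finset.sum_range_succ]
  | succ n ih =>
    have h : 2 * (n + 1) + 2 = (2 * n + 2) + 1 + 1 := by ring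
    rw [h, Finset.sum_range_succ, Finset.sum_range_succ, ih, pow_succ]
    ring

/-- The elements of the counterexample. -/
noncomputable def w (n : ℕ) : Free root :=
  ∑ u : V n, ∑ j : Fin (2 * n + 2), sg j • dlt root (vert u j)

/-- Value of a linear functional at `w n`. -/
lemma apply_w (n : ℕ) (φ : Free root →ₗ[ℝ] ℝ) :
    φ (w n) = ∑ u : V n, ∑ j : Fin (2 * n + 2),
      sg j * (φ (dlt root (vert u j)) - φ (dlt root (par u j))) := by
  unfold w
  rw [map_sum]
  refine Finset.sum_congr rfl fun u _ => ?_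
  rw [map_sum]
  have h1 : ∑ j : Fin (2 * n + 2), sg j * φ (dlt root (par u j)) = 0 := by
    have h2 : ∀ j : Fin (2 * n + 2), sg j * φ (dlt root (par u j)) =
        sg j * φ (dlt root (par u 0)) := fun j => by rw [par_eq u j 0]
    rw [Finset.sum_congr rfl fun j _ => h2 j, ← Finset.sum_mul, sum_sg, zero_mul]
  simp only [mul_sub, map_smul, smul_eq_mul]
  rw [Finset.sum_sub_distrib, h1, sub_zero]

/-- The inclusion of the free space in the dual of `Lip₀`. -/
noncomputable def incl : Free root →L[ℝ] StrongDual ℝ (Lip0 root) :=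
  Submodule.subtypeL (closedSpan (range (delta root)))

/-- Evaluation of elements of the free space at a Lipschitz function. -/
noncomputable def evalL (f : Lip0 root) : Free root →L[ℝ] ℝ :=
  (ContinuousLinearMap.apply ℝ ℝ f).comp incl

lemma evalL_apply (f : Lip0 root) (g : Free root) : evalL f g = incl g f := rfl

lemma evalL_dlt (f : Lip0 root) (p : Tree) : evalL f (dlt root p) = f.1 p := rfl

lemma evalL_w (n : ℕ) (f : Lip0 root) :
    evalL f (w n) = ∑ u : V n, ∑ j : Fin (2 * n + 2), sg j * (f.1 (vert u j) - f.1 (par u j)) :=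
  apply_w n (evalL f).toLinearMap

lemma N_mul_t (n : ℕ) : (N (n + 1) : ℝ) * t n = 2 := by
  unfold t
  have : (N (n + 1) : ℝ) ≠ 0 := by exact_mod_cast (N_pos _).ne'
  field_simp

lemma N_mul_t_succ (n : ℕ) : (N (n + 1) : ℝ) * t (n + 1) = 1 / (n + 2) := by
  rw [t_succ, mul_div_assoc', N_mul_t]
  field_simp
  ring

lemma sum_const_V (n : ℕ) (c : ℝ) :
    ∑ _u : V n, ∑ _j : Fin (2 * n + 2), c = N (n + 1) * c := by
  simp only [Finset.sum_const, Finset.card_univ, card_V, Fintype.card_fin, nsmul_eq_mul]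
  rw [N_succ]
  push_cast
  ring

lemma norm_w_le (n : ℕ) : ‖w n‖ ≤ 2 := by
  have h : ‖incl (w n)‖ ≤ 2 := by
    apply ContinuousLinearMap.opNorm_le_bound _ (by norm_num)
    intro f
    rw [← evalL_apply, evalL_w, Real.norm_eq_abs]
    calc |∑ u : V n, ∑ j : Fin (2 * n + 2), sg j * (f.1 (vert u j) - f.1 (par u j))|
        ≤ ∑ u : V n, ∑ j : Fin (2 * n + 2), ‖f‖ * t n := by
          refine (Finset.abs_sum_le_sum_abs _ _).trans (Finset.sum_le_sum fun u _ => ?_)
          refine (Finset.abs_sum_le_sum_abs _ _).trans (Finset.sum_le_sum fun j _ => ?_)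
          rw [abs_mul, abs_sg, one_mul]
          refine (abs_sub_le_norm f _ _).trans ?_
          rw [dist_vert_par]
          have := t_pos (n + 1)
          gcongr
          linarith
      _ = 2 * ‖f‖ := by
          rw [sum_const_V]
          have := N_mul_t n
          calc (N (n + 1) : ℝ) * (‖f‖ * t n) = (N (n + 1) * t n) * ‖f‖ := by ring
            _ = 2 * ‖f‖ := by rw [this]
  exact h

end Pool.Agent.H58.FreeTree
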