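import Pool.Agent.H58.FreeTree.Fun

open Set Topology Filter PiNat MeasureTheory

namespace Pool.Agent.H58.FreeTree

/-! ### The level function -/

lemma exists_lev (v : ℝ) : ∃ n : ℕ, v ≤ 0 ∨ t (n + 1) < v := by
  by_cases hv : v ≤ 0
  · exact ⟨0, Or.inl hv⟩
  · push Not at hv
    have h := (tendsto_add_atTop_iff_nat 1).mpr t_tendsto
    obtain ⟨n, hn⟩ := (h.eventually (gt_mem_nhds hv)).exists
    exact ⟨n, Or.inr hn⟩

/-- The level of the edges at height `v`: the `n` with `t (n + 1) < v ≤ t n`. -/
noncomputable def lev (v : ℝ) : ℕ := by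
  classical exact Nat.find (exists_lev v)

lemma measurable_lev : Measurable lev := by
  classical
  unfold lev
  apply measurable_find
  intro k
  exact (measurableSet_le measurable_id measurable_const).union
    (measurableSet_lt measurable_const measurable_id)

lemma lev_eq {n : ℕ} {v : ℝ} (h1 : t (n + 1) < v) (h2 : v ≤ t n) : lev v = n := by
  classical
  unfold lev
  rw [Nat.find_eq_iff]
  refine ⟨Or.inr h1, fun i hi => ?_⟩
  push Not
  refine ⟨(t_pos _).trans h1, h2.trans (t_antitone (by omega))⟩

lemma le_t_lev {v : ℝ} (hv : v ≤ 1) : v ≤ t (lev v) := by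
  classical
  rcases Nat.eq_zero_or_pos (lev v) with h | h
  · rw [h, t_zero]; exact hv
  · have h1 : lev v - 1 < Nat.find (exists_lev v) := by
      change lev v - 1 < lev v
      omega
    have h2 := Nat.find_min (exists_lev v) h1
    push Not at h2
    have h3 : lev v - 1 + 1 = lev v := by omega
    rw [h3] at h2
    exact h2.2

/-- The slope field used to show that `W` is not relatively weakly compact. -/
noncomputable def θk (k : ℕ) (x : Leaf) (v : ℝ) : ℝ :=
  if 0 < v ∧ v ≤ t k then -sg (x (lev v)) else 0

lemma θk_slope (k : ℕ) : Slope (θk k) where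
  meas := by
    intro x
    unfold θk
    apply Measurable.ite
    · exact (measurableSet_lt measurable_const measurable_id).inter
        (measurableSet_le measurable_id measurable_const)
    · exact ((measurable_of_countable (fun n : ℕ => sg (x n))).comp measurable_lev).neg
    · exact measurable_const
  bdd := by
    intro x s
    unfold θk
    split_ifs
    · rw [abs_neg, abs_sg]
    · simp
  cons := by
    intro x y s h
    unfold θk
    by_cases hs : 0 < s ∧ s ≤ t k
    · rw [if_pos hs, if_pos hs]
      have h1 : s ≤ t (lev s) := le_t_lev (hs.2.trans (t_le_one k))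
      have h2 := agree_of_τ_lt (h.trans_le h1) (lev s) (Nat.lt_succ_self _)
      rw [h2]
    · rw [if_neg hs, if_neg hs]

lemma prim_θk_edge {k n : ℕ} (hn : k ≤ n) (x : Leaf) :
    prim (θk k) x (t (n + 1)) - prim (θk k) x (t n) = sg (x n) * (t n - t (n + 1)) := by
  rw [(θk_slope k).prim_sub]
  have hle : t (n + 1) ≤ t n := t_antitone (Nat.le_succ n)
  have h1 : ∫ u in t (n + 1)..t n, θk k x u = ∫ u in t (n + 1)..t n, -sg (x n) := by
    apply intervalIntegral.integral_congr_ae
    apply Eventually.of_forall
    intro u hu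
    rw [uIoc_of_le hle] at hu
    unfold θk
    rw [if_pos ⟨(t_pos _).trans hu.1, hu.2.trans (t_antitone hn)⟩, lev_eq hu.1 hu.2]
  rw [h1, intervalIntegral.integral_const, smul_eq_mul]
  ring

lemma evalL_θk_w {k n : ℕ} (hn : k ≤ n) : 1 ≤ evalL (fnL (θk k) (θk_slope k)) (w n) := by
  rw [evalL_w]
  have h1 : ∀ (u : V n) (j : Fin (2 * n + 2)),
      sg j * ((fnL (θk k) (θk_slope k)).1 (vert u j) - (fnL (θk k) (θk_slope k)).1 (par u j)) =
        t n - t (n + 1) := by
    intro u j
    change sg j * (fn (θk k) (vert u j) - fn (θk k) (par u j)) = _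
    unfold vert par
    rw [(θk_slope k).fn_P _ (t_mem _), (θk_slope k).fn_P _ (t_mem _), prim_θk_edge hn, ext_eq,
      ← mul_assoc, sg_sq, one_mul]
  simp_rw [h1]
  rw [sum_const_V, mul_sub, N_mul_t, N_mul_t_succ]
  have : (1 : ℝ) / (n + 2) ≤ 1 := by
    rw [div_le_one (by positivity)]
    have : (0 : ℝ) ≤ n := Nat.cast_nonneg n
    linarith
  linarith

lemma fn_θk_le (k : ℕ) (p : Tree) : |fn (θk k) p| ≤ t k := by
  obtain ⟨x, s, hs, rfl⟩ := exists_P p
  rw [(θk_slope k).fn_P x hs]
  have h1 : ∀ a ∈ Icc (t k) 1, prim (θk k) x a = 0 := by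
    intro a ha
    unfold prim
    rw [neg_eq_zero]
    have : ∫ u in a..1, θk k x u = ∫ u in a..1, (0 : ℝ) := by
      apply intervalIntegral.integral_congr_ae
      apply Eventually.of_forall
      intro u hu
      rw [uIoc_of_le ha.2] at hu
      unfold θk
      rw [if_neg]
      rintro ⟨_, h⟩
      linarith [ha.1, hu.1]
    rw [this]; simp
  rcases le_total (t k) s with h | h
  · rw [h1 s ⟨h, hs.2⟩, abs_zero]; exact (t_pos k).le
  · have h2 := (θk_slope k).abs_prim_sub_le x h
    rw [h1 (t k) ⟨le_rfl, t_le_one k⟩, sub_zero] at h2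
    linarith [hs.1]

/-- Evaluation at a point, as a functional on `Lip₀`. -/
noncomputable def dS (p : Tree) : StrongDual ℝ (Lip0 root) := delta root p

/-- The values of an element of the free space on the functions with slopes `θk k` tend to `0`. -/
lemma evalL_θk_tendsto (z : Free root) :
    Tendsto (fun k => evalL (fnL (θk k) (θk_slope k)) z) atTop (𝓝 0) := by
  -- first on the linear span
  have hspan : ∀ g ∈ Submodule.span ℝ (range dS), Tendsto (fun k => g (fnL (θk k) (θk_slope k))) atTop (𝓝 0) := by
    intro g hg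
    induction hg using Submodule.span_induction with
    | mem x hx =>
      obtain ⟨p, rfl⟩ := hx
      apply squeeze_zero_norm (a := t) _ t_tendsto
      intro k
      exact fn_θk_le k p
    | zero => simp
    | add x y _ _ hx hy => simpa using hx.add hy
    | smul c x _ hx => simpa using hx.const_mul c
  rw [Metric.tendsto_atTop]
  intro ε hε
  have hz : incl z ∈ closure
      ((Submodule.span ℝ (range dS) : Submodule ℝ _) : Set _) := z.2
  obtain ⟨g, hg, hgz⟩ := Metric.mem_closure_iff.mp hz (ε / 2) (by positivity)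
  obtain ⟨K, hK⟩ := Metric.tendsto_atTop.mp (hspan g hg) (ε / 2) (by positivity)
  refine ⟨K, fun k hk => ?_⟩
  have h1 := hK k hk
  rw [dist_zero_right] at h1 ⊢
  rw [evalL_apply]
  set f := fnL (θk k) (θk_slope k) with hf
  have h2 : ‖(incl z - g) f‖ ≤ ε / 2 := by
    calc ‖(incl z - g) f‖
        ≤ ‖incl z - g‖ * ‖f‖ := ContinuousLinearMap.le_opNorm _ _
      _ ≤ ε / 2 * 1 := by
        gcongr
        · rw [dist_eq_norm] at hgz; exact hgz.le
        · exact (θk_slope k).norm_fnL_le
      _ = ε / 2 := mul_one _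
  have h3 : incl z f =
      (incl z - g) f + g f := by
    simp
  rw [h3]
  calc ‖(incl z - g) f + g f‖
      ≤ ‖(incl z - g) f‖ + ‖g f‖ := norm_add_le _ _
    _ < ε := by linarith

theorem not_relWeaklyCompact : ¬ RelWeaklyCompact (range w) := by
  intro h
  unfold RelWeaklyCompact at h
  set C := closure (toWeakSpace ℝ (Free root) '' range w) with hC
  have hy : ∀ n, toWeakSpace ℝ (Free root) (w n) ∈ C := fun n =>
    subset_closure ⟨w n, ⟨n, rfl⟩, rfl⟩
  obtain ⟨z, _, hz⟩ := h.exists_mapClusterPt_of_frequently (l := atTop)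
    (f := fun n => toWeakSpace ℝ (Free root) (w n)) (Eventually.of_forall hy).frequently
  set z' : Free root := (toWeakSpace ℝ (Free root)).symm z with hz'
  have key : ∀ k, 1 ≤ evalL (fnL (θk k) (θk_slope k)) z' := by
    intro k
    set ψ := evalL (fnL (θk k) (θk_slope k)) with hψ
    have hcont : Continuous fun y : WeakSpace ℝ (Free root) =>
        ψ ((toWeakSpace ℝ (Free root)).symm y) := by
      exact WeakBilin.eval_continuous (topDualPairing ℝ (Free root)).flip ψ
    have h1 : MapClusterPt (ψ z') atTop fun n => ψ (w n) := by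
      have := hz.continuousAt_comp (f := fun y : WeakSpace ℝ (Free root) =>
        ψ ((toWeakSpace ℝ (Free root)).symm y)) hcont.continuousAt
      exact this
    have h2 : ∀ᶠ n in atTop, ψ (w n) ∈ Ici (1 : ℝ) := by
      filter_upwards [eventually_ge_atTop k] with n hn
      exact evalL_θk_w hn
    exact isClosed_Ici.mem_of_mapClusterPt h1 h2
  obtain ⟨k, hk⟩ := ((evalL_θk_tendsto z').eventually (gt_mem_nhds zero_lt_one)).exists
  have := key k
  linarith

end Pool.Agent.H58.FreeTree
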