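import Pool.Agent.H58.FreeTree.Defs

open Set Topology

namespace Pool.Agent.H58.FreeTree

section

variable {T : Type*} [MetricSpace T]

/-- Gromov product. -/
noncomputable def gp (z x y : T) : ℝ := (dist x z + dist y z - dist x y) / 2

lemma gp_ultra (h4 : ∀ x y z w : T, dist x y + dist z w ≤
    max (dist x z + dist y w) (dist x w + dist y z)) (z x y w : T) :
    min (gp z x y) (gp z y w) ≤ gp z x w := by
  unfold gp
  have h := h4 x w y z
  rw [min_le_iff]
  rcases le_max_iff.mp h with h | h
  · left
    rw [dist_comm w z] at h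
    linarith [dist_comm z w]
  · right
    rw [dist_comm w y] at h
    linarith

/-- A geodesic metric space satisfying the four-point condition is an `ℝ`-tree. -/
theorem isRTree_of_fourPoint
    (h4 : ∀ x y z w : T, dist x y + dist z w ≤ max (dist x z + dist y w) (dist x w + dist y z))
    (hgeo : ∀ x y : T, ∃ φ : ℝ → T, φ 0 = x ∧ φ (dist x y) = y ∧
      ∀ s ∈ Icc 0 (dist x y), ∀ t ∈ Icc 0 (dist x y), dist (φ s) (φ t) = |s - t|) :
    IsRTree T := by
  -- every arc from `x` to `y` is the image of the geodesic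
  have key : ∀ x y : T, x ≠ y → ∀ φ : ℝ → T, φ 0 = x → φ (dist x y) = y →
      (∀ s ∈ Icc 0 (dist x y), ∀ t ∈ Icc 0 (dist x y), dist (φ s) (φ t) = |s - t|) →
      ∀ A : Set T, IsArc A x y → A = φ '' Icc 0 (dist x y) := by
    intro x y hxy φ h0 h1 hφ A hA
    obtain ⟨γ, hγ, hinj, hγ0, hγ1, rfl⟩ := hA
    have hD : 0 < dist x y := dist_pos.mpr hxy
    have hmem0 : (0 : ℝ) ∈ Icc 0 (dist x y) := ⟨le_rfl, hD.le⟩
    have hmem1 : dist x y ∈ Icc 0 (dist x y) := ⟨hD.le, le_rfl⟩
    -- step 1: the geodesic is contained in the arc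
    have step1 : φ '' Icc 0 (dist x y) ⊆ range γ := by
      rintro _ ⟨s, hs, rfl⟩
      by_contra hz
      set z := φ s with hzdef
      have hxz : dist x z = s := by
        rw [hzdef, ← h0, hφ 0 hmem0 s hs, zero_sub, abs_neg, abs_of_nonneg hs.1]
      have hyz : dist y z = dist x y - s := by
        have := hφ _ hmem1 s hs
        rw [h1] at this
        rw [hzdef, this, abs_of_nonneg (by linarith [hs.2])]
      set B : Set T := {p | 0 < gp z p y} with hB
      have hcont : Continuous fun p : T => gp z p y := by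
        unfold gp; fun_prop
      have hopen : IsOpen (γ ⁻¹' B) := (isOpen_lt continuous_const hcont).preimage hγ
      have hclosed : IsClosed (γ ⁻¹' B) := by
        rw [← isOpen_compl_iff]
        rw [isOpen_iff_mem_nhds]
        intro t ht
        have htz : γ t ≠ z := fun h => hz ⟨t, h⟩
        have htz' : 0 < dist (γ t) z := dist_pos.mpr htz
        have ht' : gp z (γ t) y ≤ 0 := by
          simpa [hB] using ht
        -- nearby points have positive Gromov product with `γ t`
        have hnear : ∀ᶠ t' in 𝓝 t, 0 < gp z (γ t) (γ t') := by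
          have hc : Continuous fun t' => gp z (γ t) (γ t') := by
            unfold gp; fun_prop
          have h2 : 0 < gp z (γ t) (γ t) := by
            unfold gp; rw [dist_self]; linarith
          exact hc.continuousAt.eventually (lt_mem_nhds h2)
        filter_upwards [hnear] with t' ht2
        change ¬ (0 < gp z (γ t') y)
        intro hcon
        have := gp_ultra h4 z (γ t) (γ t') y
        rcases min_le_iff.mp this with h | h <;> linarith
      have hclopen : IsClopen (γ ⁻¹' B) := ⟨hclosed, hopen⟩
      have h1mem : (1 : unitInterval) ∈ γ ⁻¹' B := by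
        change 0 < gp z (γ 1) y
        have hzy : y ≠ z := fun h => hz ⟨1, by rw [hγ1, h]⟩
        have := dist_pos.mpr hzy
        rw [hγ1]; unfold gp; rw [dist_self]; linarith
      have huniv := hclopen.eq_univ ⟨1, h1mem⟩
      have h0mem : (0 : unitInterval) ∈ γ ⁻¹' B := by rw [huniv]; trivial
      change 0 < gp z (γ 0) y at h0mem
      rw [hγ0] at h0mem
      unfold gp at h0mem
      rw [hxz, hyz] at h0mem
      linarith
    -- step 2
    have hcontφ : ContinuousOn φ (Icc 0 (dist x y)) := by
      rw [Metric.continuousOn_iff]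
      intro b hb ε hε
      refine ⟨ε, hε, fun a ha hab => ?_⟩
      rw [hφ a ha b hb]
      exact hab
    have hconn : IsPreconnected (φ '' Icc 0 (dist x y)) := isPreconnected_Icc.image φ hcontφ
    have hemb : IsEmbedding γ := (hγ.isClosedEmbedding hinj).isEmbedding
    have hpre : IsPreconnected (γ ⁻¹' (φ '' Icc 0 (dist x y))) := by
      rw [← hemb.isInducing.isPreconnected_image, image_preimage_eq_of_subset step1]
      exact hconn
    have hord := hpre.ordConnected
    have hall : γ ⁻¹' (φ '' Icc 0 (dist x y)) = univ := by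
      rw [eq_univ_iff_forall]
      intro t
      have h0' : (0 : unitInterval) ∈ γ ⁻¹' (φ '' Icc 0 (dist x y)) := by
        change γ 0 ∈ φ '' Icc 0 (dist x y)
        rw [hγ0]; exact ⟨0, hmem0, h0⟩
      have h1' : (1 : unitInterval) ∈ γ ⁻¹' (φ '' Icc 0 (dist x y)) := by
        change γ 1 ∈ φ '' Icc 0 (dist x y)
        rw [hγ1]; exact ⟨_, hmem1, h1⟩
      exact hord.out h0' h1' ⟨t.2.1, t.2.2⟩
    apply Subset.antisymm _ step1
    rintro _ ⟨t, rfl⟩
    have : t ∈ γ ⁻¹' (φ '' Icc 0 (dist x y)) := by rw [hall]; trivial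
    exact this
  constructor
  · intro x y hxy
    obtain ⟨φ, h0, h1, hφ⟩ := hgeo x y
    have hD : 0 < dist x y := dist_pos.mpr hxy
    refine ⟨φ '' Icc 0 (dist x y), ?_, fun A hA => key x y hxy φ h0 h1 hφ A hA⟩
    have hmem : ∀ t : unitInterval, (t : ℝ) * dist x y ∈ Icc 0 (dist x y) := by
      intro t
      have := t.2.1
      have := t.2.2
      constructor
      · positivity
      · nlinarith
    refine ⟨fun t => φ (t * dist x y), ?_, ?_, ?_, ?_, ?_⟩
    · rw [Metric.continuous_iff]
      intro b ε hε
      refine ⟨ε / dist x y, by positivity, fun a hab => ?_⟩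
      rw [hφ _ (hmem a) _ (hmem b), ← sub_mul, abs_mul, abs_of_pos hD]
      rw [Subtype.dist_eq, Real.dist_eq, lt_div_iff₀ hD] at hab
      exact hab
    · intro a b hab
      have h2 : dist (φ (a * dist x y)) (φ (b * dist x y)) = 0 := by
        rw [dist_eq_zero]; exact hab
      rw [hφ _ (hmem a) _ (hmem b), abs_eq_zero, ← sub_mul] at h2
      rcases mul_eq_zero.mp h2 with h | h
      · exact Subtype.ext (by linarith)
      · linarith
    · simp [h0]
    · simp [h1]
    · ext p
      constructor
      · rintro ⟨t, rfl⟩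
        exact ⟨_, hmem t, rfl⟩
      · rintro ⟨s, hs, rfl⟩
        refine ⟨⟨s / dist x y, div_nonneg hs.1 hD.le, (div_le_one hD).mpr hs.2⟩, ?_⟩
        change φ (s / dist x y * dist x y) = φ s
        rw [div_mul_cancel₀ _ hD.ne']
  · intro x y hxy A hA
    obtain ⟨φ, h0, h1, hφ⟩ := hgeo x y
    have hA' := key x y hxy φ h0 h1 hφ A hA
    refine ⟨fun s => φ s, ?_, ?_⟩
    · apply Isometry.of_dist_eq
      intro s t
      rw [hφ s s.2 t t.2]
      rfl
    · rw [hA']
      ext p
      constructor
      · rintro ⟨s, rfl⟩; exact ⟨s, s.2, rfl⟩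
      · rintro ⟨s, hs, rfl⟩; exact ⟨⟨s, hs⟩, rfl⟩

end

end Pool.Agent.H58.FreeTree
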