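import Pool.Agent.H58.FreeTree.Fun

open Set Topology Filter PiNat MeasureTheory
open scoped ENNReal

namespace Pool.Agent.H58.FreeTree

/-- Hahn-Banach separation of a point from a subspace. -/
lemma exists_sep {E : Type*} [SeminormedAddCommGroup E] [NormedSpace ℝ E] (Y : Submodule ℝ E)
    (z : E) {ε : ℝ} (hε : ∀ v ∈ Y, ε ≤ ‖z - v‖) :
    ∃ φ : StrongDual ℝ E, ‖φ‖ ≤ 1 ∧ (∀ v ∈ Y, φ v = 0) ∧ ε ≤ φ z := by
  obtain ⟨g, hg1, hg2⟩ := exists_dual_vector'' ℝ (Y.mkQ z)
  refine ⟨g.comp Y.mkQL, ?_, ?_, ?_⟩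
  · apply ContinuousLinearMap.opNorm_le_bound _ zero_le_one
    intro x
    calc ‖(g.comp Y.mkQL) x‖ ≤ ‖g‖ * ‖Y.mkQ x‖ := g.le_opNorm _
      _ ≤ 1 * ‖x‖ := by
        gcongr
        exact Submodule.Quotient.norm_mk_le Y x
  · intro v hv
    change g (Y.mkQ v) = 0
    have h0 : Y.mkQ v = 0 := (Submodule.Quotient.mk_eq_zero Y).mpr hv
    rw [h0, map_zero]
  · change ε ≤ g (Y.mkQ z)
    rw [hg2]
    change ε ≤ ‖((z : E ⧸ Y.toAddSubgroup))‖
    rw [QuotientAddGroup.norm_mk]
    refine (Metric.le_infDist ⟨0, Y.zero_mem⟩).mpr fun v hv => ?_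
    rw [dist_eq_norm]
    exact hε v hv

/-- The function on the tree associated with a functional on the free space. -/
noncomputable def fOf (φ : StrongDual ℝ (Free root)) (p : Tree) : ℝ := φ (dlt root p)

lemma norm_dlt_sub (p q : Tree) : ‖dlt root p - dlt root q‖ ≤ dist p q := by
  have h : ‖(delta root p - delta root q : StrongDual ℝ (Lip0 root))‖ ≤ dist p q := by
    apply ContinuousLinearMap.opNorm_le_bound _ dist_nonneg
    intro f
    have := abs_sub_le_norm f p q
    rw [mul_comm]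
    exact this
  exact h

lemma fOf_lip {φ : StrongDual ℝ (Free root)} (hφ : ‖φ‖ ≤ 1) (p q : Tree) :
    |fOf φ p - fOf φ q| ≤ dist p q := by
  unfold fOf
  rw [← map_sub, ← Real.norm_eq_abs]
  calc ‖φ (dlt root p - dlt root q)‖ ≤ ‖φ‖ * ‖dlt root p - dlt root q‖ := φ.le_opNorm _
    _ ≤ 1 * dist p q := by
      gcongr
      exact norm_dlt_sub p q
    _ = dist p q := one_mul _

lemma fOf_w (φ : StrongDual ℝ (Free root)) (n : ℕ) :
    φ (w n) = ∑ u : V n, ∑ j : Fin (2 * n + 2),
      sg j * (fOf φ (vert u j) - fOf φ (par u j)) := apply_w n φ.toLinearMap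

/-! ### The uniform measure on leaves -/

/-- Uniform probability measure on a finite set of digits. -/
noncomputable def ud (n : ℕ) : Measure (Fin (2 * n + 2)) := ProbabilityTheory.uniformOn univ

instance (n : ℕ) : IsProbabilityMeasure (ud n) :=
  ProbabilityTheory.isProbabilityMeasure_uniformOn finite_univ univ_nonempty

/-- Uniform measure on leaves. -/
noncomputable def ν : Measure Leaf := Measure.infinitePi ud

instance : IsProbabilityMeasure ν := by unfold ν; infer_instance

/-- The cylinder of a vertex. -/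
def cyl {n : ℕ} (p : V n × Fin (2 * n + 2)) : Set Leaf := {x | ∀ i < n + 1, x i = ext p.1 p.2 i}

lemma cyl_eq {n : ℕ} (p : V n × Fin (2 * n + 2)) :
    cyl p = Set.pi (Finset.range (n + 1)) fun i => {ext p.1 p.2 i} := by
  ext x
  simp [cyl, Set.mem_pi]

lemma measurableSet_cyl {n : ℕ} (p : V n × Fin (2 * n + 2)) : MeasurableSet (cyl p) := by
  rw [cyl_eq]
  exact MeasurableSet.pi (Finset.countable_toSet _) fun i _ => measurableSet_singleton _

lemma ν_cyl {n : ℕ} (p : V n × Fin (2 * n + 2)) : ν (cyl p) = (N (n + 1) : ℝ≥0∞)⁻¹ := by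
  rw [cyl_eq, ν, Measure.infinitePi_pi _ (fun i _ => measurableSet_singleton _)]
  have h1 : ∀ i, ud i {ext p.1 p.2 i} = ((2 * i + 2 : ℕ) : ℝ≥0∞)⁻¹ := by
    intro i
    unfold ud
    rw [ProbabilityTheory.uniformOn_univ]
    simp
  simp_rw [h1]
  clear h1
  induction n + 1 with
  | zero => simp [N]
  | succ n ih =>
    rw [Finset.prod_range_succ, ih, N_succ]
    rw [← ENNReal.mul_inv]
    · push_cast; rfl
    · right; exact ENNReal.natCast_ne_top _
    · left; exact ENNReal.natCast_ne_top _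

lemma cyl_disjoint {n : ℕ} {p q : V n × Fin (2 * n + 2)} (h : p ≠ q) :
    Disjoint (cyl p) (cyl q) := by
  rw [Set.disjoint_left]
  intro x hx hy
  obtain ⟨h1, h2⟩ := eq_of_agree hx
  obtain ⟨h3, h4⟩ := eq_of_agree hy
  exact h (Prod.ext (h1.trans h3.symm) (h2.trans h4.symm))

lemma ν_biUnion_cyl {n : ℕ} (S : Finset (V n × Fin (2 * n + 2))) :
    ν (⋃ p ∈ S, cyl p) = S.card * (N (n + 1) : ℝ≥0∞)⁻¹ := by
  rw [measure_biUnion_finset (fun p _ q _ h => cyl_disjoint h) (fun p _ => measurableSet_cyl p)]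
  simp_rw [ν_cyl]
  rw [Finset.sum_const, nsmul_eq_mul]

/-! ### The key estimate -/

/-- Good vertices for `f`: those where `|f|` exceeds the height. -/
noncomputable def good (f : Tree → ℝ) (n : ℕ) : Finset (V n × Fin (2 * n + 2)) := by
  classical exact Finset.univ.filter fun p => t (n + 1) < |f (vert p.1 p.2)|

lemma key_estimate {f : Tree → ℝ} (hf : ∀ p q, |f p - f q| ≤ dist p q) (n : ℕ) :
    ∑ u : V n, ∑ j : Fin (2 * n + 2), sg j * (f (vert u j) - f (par u j)) ≤
      3 * t n * (good f n).card + 1 / (n + 2) := by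
  classical
  have ht : 0 < t n := t_pos n
  have ht1 : 0 < t (n + 1) := t_pos (n + 1)
  have hle : t (n + 1) ≤ t n / 4 := t_succ_le n
  have hu : ∀ u : V n, ∑ j : Fin (2 * n + 2), sg j * (f (vert u j) - f (par u j)) ≤
      ∑ j : Fin (2 * n + 2), ((if (u, j) ∈ good f n then 3 * t n else 0) + t (n + 1)) := by
    intro u
    have hd : ∀ j : Fin (2 * n + 2), |f (vert u j) - f (par u j)| ≤ t n := by
      intro j
      refine (hf _ _).trans ?_
      rw [dist_vert_par]; linarith
    by_cases hbig : 2 * t n < |f (par u 0)|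
    · -- all children are good
      apply Finset.sum_le_sum
      intro j _
      have h1 : (u, j) ∈ good f n := by
        unfold good
        rw [Finset.mem_filter]
        refine ⟨Finset.mem_univ _, ?_⟩
        have h2 := hd j
        rw [par_eq u j 0] at h2
        have h3 := abs_sub_abs_le_abs_sub (f (par u 0)) (f (vert u j))
        rw [abs_sub_comm] at h3
        simp only
        linarith
      rw [if_pos h1]
      have h2 : sg j * (f (vert u j) - f (par u j)) ≤ t n := by
        refine (le_abs_self _).trans ?_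
        rw [abs_mul, abs_sg, one_mul]
        exact hd j
      linarith
    · push Not at hbig
      have h1 : ∑ j : Fin (2 * n + 2), sg j * (f (vert u j) - f (par u j)) =
          ∑ j : Fin (2 * n + 2), sg j * f (vert u j) := by
        have h2 : ∑ j : Fin (2 * n + 2), sg j * f (par u j) = 0 := by
          have h3 : ∀ j : Fin (2 * n + 2), sg j * f (par u j) = sg j * f (par u 0) :=
            fun j => by rw [par_eq u j 0]
          rw [Finset.sum_congr rfl fun j _ => h3 j, ← Finset.sum_mul, sum_sg, zero_mul]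
        simp only [mul_sub]
        rw [Finset.sum_sub_distrib, h2, sub_zero]
      rw [h1]
      apply Finset.sum_le_sum
      intro j _
      have h4 : sg j * f (vert u j) ≤ |f (vert u j)| := by
        refine (le_abs_self _).trans ?_
        rw [abs_mul, abs_sg, one_mul]
      by_cases hg : (u, j) ∈ good f n
      · rw [if_pos hg]
        have h2 := hd j
        rw [par_eq u j 0] at h2
        have h3 := abs_sub_abs_le_abs_sub (f (vert u j)) (f (par u 0))
        linarith
      · rw [if_neg hg]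
        unfold good at hg
        simp only [Finset.mem_filter, Finset.mem_univ, true_and, not_lt] at hg
        linarith
  refine (Finset.sum_le_sum fun u _ => hu u).trans ?_
  simp only [Finset.sum_add_distrib]
  rw [sum_const_V, N_mul_t_succ]
  have h5 : ∑ u : V n, ∑ j : Fin (2 * n + 2), (if (u, j) ∈ good f n then 3 * t n else 0) =
      3 * t n * (good f n).card := by
    rw [← Finset.sum_product', Finset.univ_product_univ]
    simp only [Prod.mk.eta]
    rw [Finset.sum_ite_mem, Finset.univ_inter, Finset.sum_const, nsmul_eq_mul]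
    ring
  rw [h5]

/-- Below a good vertex the function does not vanish at the leaves. -/
lemma ne_zero_of_good {f : Tree → ℝ} (hf : ∀ p q, |f p - f q| ≤ dist p q) {n : ℕ}
    {p : V n × Fin (2 * n + 2)} (hp : p ∈ good f n) {x : Leaf} (hx : x ∈ cyl p) :
    f (P x 0) ≠ 0 := by
  classical
  intro h0
  unfold good at hp
  simp only [Finset.mem_filter, Finset.mem_univ, true_and] at hp
  have h1 : vert p.1 p.2 = P x (t (n + 1)) := by
    unfold vert
    apply P_eq (t_mem _)
    apply τ_le_of_agree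
    intro i hi
    exact (hx i hi).symm
  have h2 := hf (vert p.1 p.2) (P x 0)
  rw [h0, sub_zero, h1, dist_P_same x (t_mem _) ⟨le_rfl, zero_le_one⟩, sub_zero,
    abs_of_pos (t_pos _)] at h2
  rw [h1] at hp
  linarith

/-- A functional with a large value at `w n` is nonzero on a large set of leaves. -/
lemma measure_ne_zero {f : Tree → ℝ} (hf : ∀ p q, |f p - f q| ≤ dist p q) {n : ℕ} {ε : ℝ}
    (hε : ε ≤ ∑ u : V n, ∑ j : Fin (2 * n + 2), sg j * (f (vert u j) - f (par u j)))
    (hn : 1 / ((n : ℝ) + 2) ≤ ε / 2) :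
    ENNReal.ofReal (ε / 12) ≤ ν {x | f (P x 0) ≠ 0} := by
  have h1 := key_estimate hf n
  have h2 : ε / 2 ≤ 3 * t n * (good f n).card := by linarith
  have hN : (0 : ℝ) < N (n + 1) := by exact_mod_cast N_pos _
  have h3 : ε / 12 ≤ (good f n).card / N (n + 1) := by
    rw [le_div_iff₀ hN]
    have h4 := N_mul_t n
    have h5 : ε / 2 * N (n + 1) ≤ 6 * (good f n).card := by
      calc ε / 2 * N (n + 1) ≤ 3 * t n * (good f n).card * N (n + 1) := by gcongr
        _ = 3 * (N (n + 1) * t n) * (good f n).card := by ring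
        _ = 6 * (good f n).card := by rw [h4]; ring
    linarith
  calc ENNReal.ofReal (ε / 12) ≤ ENNReal.ofReal ((good f n).card / N (n + 1)) :=
        ENNReal.ofReal_le_ofReal h3
    _ = (good f n).card * (N (n + 1) : ℝ≥0∞)⁻¹ := by
        rw [ENNReal.ofReal_div_of_pos hN, ENNReal.ofReal_natCast, ENNReal.ofReal_natCast,
          ENNReal.div_eq_inv_mul, mul_comm]
    _ = ν (⋃ p ∈ good f n, cyl p) := (ν_biUnion_cyl _).symm
    _ ≤ ν {x | f (P x 0) ≠ 0} := by
        apply measure_mono
        intro x hx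
        simp only [mem_iUnion, exists_prop] at hx
        obtain ⟨p, hp, hxp⟩ := hx
        exact ne_zero_of_good hf hp hxp

theorem uniformlyRegular : UniformlyRegular (range w) := by
  intro U hU ε hε
  by_cases hF : Uᶜ = (∅ : Set Tree)
  · refine ⟨univ, isCompact_univ, ?_, ?_⟩
    · rw [compl_empty_iff.mp hF]
    · rintro _ ⟨n, rfl⟩
      refine ⟨w n, ?_, by simp [hε.le]⟩
      rw [univ_union]
      apply Submodule.le_topologicalClosure
      exact Submodule.sum_mem _ fun a _ => Submodule.sum_mem _ fun j _ =>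
        Submodule.smul_mem _ _ (Submodule.subset_span ⟨_, mem_univ _, rfl⟩)
  have hFne : (Uᶜ : Set Tree).Nonempty := nonempty_iff_ne_empty.mpr hF
  have hFcl : IsClosed (Uᶜ : Set Tree) := hU.isClosed_compl
  set K : ℕ → Set Tree := fun m => {p | 1 / ((m : ℝ) + 1) ≤ Metric.infDist p Uᶜ} with hK
  have hKcl : ∀ m, IsClosed (K m) := fun m =>
    isClosed_le continuous_const (Metric.continuous_infDist_pt _)
  have hKU : ∀ m, K m ⊆ U := by
    intro m p hp
    by_contra hpU
    have : Metric.infDist p Uᶜ = 0 := Metric.infDist_zero_of_mem hpU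
    have h2 : (0 : ℝ) < 1 / ((m : ℝ) + 1) := by positivity
    have h3 : 1 / ((m : ℝ) + 1) ≤ Metric.infDist p Uᶜ := hp
    linarith
  by_contra hcon
  push Not at hcon
  -- bad functionals
  have hbad : ∀ m : ℕ, ∃ f : Tree → ℝ, ∃ n : ℕ, (∀ p q, |f p - f q| ≤ dist p q) ∧
      (∀ p ∈ K m ∪ Uᶜ, f p = 0) ∧
      ε ≤ ∑ u : V n, ∑ j : Fin (2 * n + 2), sg j * (f (vert u j) - f (par u j)) := by
    intro m
    obtain ⟨_, ⟨n, rfl⟩, hn⟩ := hcon (K m) ((hKcl m).isCompact) (hKU m)
    set Y : Submodule ℝ (Free root) := closedSpan (dlt root '' (K m ∪ Uᶜ)) with hY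
    obtain ⟨φ, hφ1, hφ2, hφ3⟩ := exists_sep Y (w n) (ε := ε) (fun v hv => (hn v hv).le)
    refine ⟨fOf φ, n, fOf_lip hφ1, ?_, ?_⟩
    · intro p hp
      apply hφ2
      exact Submodule.le_topologicalClosure _ (Submodule.subset_span ⟨p, hp, rfl⟩)
    · rw [← fOf_w]; exact hφ3
  choose f nn hf1 hf2 hf3 using hbad
  -- the functions are uniformly small
  have hsmall : ∀ m p, |f m p| ≤ 1 / ((m : ℝ) + 1) := by
    intro m p
    by_cases hp : p ∈ K m
    · rw [hf2 m p (Or.inl hp), abs_zero]; positivity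
    · have h1 : Metric.infDist p Uᶜ < 1 / ((m : ℝ) + 1) := by
        simpa [hK] using hp
      obtain ⟨q, hq, hpq⟩ := (Metric.infDist_lt_iff hFne).mp h1
      have h2 := hf1 m p q
      rw [hf2 m q (Or.inr hq), sub_zero] at h2
      linarith
  -- hence the levels tend to infinity
  have hlevel : ∀ n₀ : ℕ, ∃ m₀ : ℕ, ∀ m ≥ m₀, n₀ < nn m := by
    intro n₀
    obtain ⟨m₀, hm₀⟩ := exists_nat_gt (2 * N (n₀ + 1) / ε : ℝ)
    refine ⟨m₀, fun m hm => ?_⟩
    by_contra hle
    push Not at hle
    have hNle : ∀ a b : ℕ, a ≤ b → N a ≤ N b := by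
      intro a b hab
      induction hab with
      | refl => exact le_rfl
      | step _ ih => rw [Nat.succ_eq_add_one, N_succ]; nlinarith
    have h1 : ∑ u : V (nn m), ∑ j : Fin (2 * nn m + 2),
        sg j * (f m (vert u j) - f m (par u j)) ≤
        ∑ u : V (nn m), ∑ j : Fin (2 * nn m + 2), 2 * (1 / ((m : ℝ) + 1)) := by
      apply Finset.sum_le_sum
      intro u _
      apply Finset.sum_le_sum
      intro j _
      refine (le_abs_self _).trans ?_
      rw [abs_mul, abs_sg, one_mul]
      refine (abs_sub _ _).trans ?_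
      have := hsmall m (vert u j)
      have := hsmall m (par u j)
      linarith
    rw [sum_const_V] at h1
    have h2 : (N (nn m + 1) : ℝ) ≤ N (n₀ + 1) := by exact_mod_cast hNle _ _ (by omega)
    have h3 := hf3 m
    have h4 : (m₀ : ℝ) ≤ m := by exact_mod_cast hm
    have h5 : 2 * (N (n₀ + 1) : ℝ) < ε * ((m : ℝ) + 1) := by
      rw [div_lt_iff₀ hε] at hm₀
      nlinarith
    have h6 : (N (nn m + 1) : ℝ) * (2 * (1 / ((m : ℝ) + 1))) < ε := by
      rw [mul_one_div, mul_div_assoc', div_lt_iff₀ (by positivity)]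
      linarith
    linarith
  -- lower bound for the measures
  obtain ⟨n₀, hn₀⟩ := exists_nat_gt (2 / ε)
  obtain ⟨m₀, hm₀⟩ := hlevel n₀
  set B : ℕ → Set Leaf := fun m => {x | P x 0 ∈ U \ K m} with hB
  have hPcont : Continuous fun x : Leaf => P x 0 := by
    have : (fun x : Leaf => P x 0) = (fun p : Leaf × Icc (0 : ℝ) 1 => P p.1 p.2) ∘
        (fun x => (x, ⟨0, le_rfl, zero_le_one⟩)) := rfl
    rw [this]
    exact continuous_P.comp (by fun_prop)
  have hBmeas : ∀ m, MeasurableSet (B m) := fun m =>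
    ((hU.preimage hPcont).measurableSet).inter
      ((hKcl m).preimage hPcont).measurableSet.compl
  have hBlow : ∀ m ≥ m₀, ENNReal.ofReal (ε / 12) ≤ ν (B m) := by
    intro m hm
    have hnm := hm₀ m hm
    have h1 : 1 / ((nn m : ℝ) + 2) ≤ ε / 2 := by
      rw [div_le_div_iff₀ (by positivity) (by norm_num)]
      rw [div_lt_iff₀ hε] at hn₀
      have : (n₀ : ℝ) < nn m := by exact_mod_cast hnm
      nlinarith
    refine (measure_ne_zero (hf1 m) (hf3 m) h1).trans (measure_mono ?_)
    intro x hx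
    change P x 0 ∈ U \ K m
    constructor
    · by_contra hxU
      exact hx (hf2 m _ (Or.inr hxU))
    · intro hxK
      exact hx (hf2 m _ (Or.inl hxK))
  have hBanti : Antitone B := by
    intro m m' hmm x hx
    refine ⟨hx.1, fun hxK => hx.2 ?_⟩
    have h1 : 1 / ((m : ℝ) + 1) ≤ Metric.infDist (P x 0) Uᶜ := hxK
    change 1 / ((m' : ℝ) + 1) ≤ Metric.infDist (P x 0) Uᶜ
    refine le_trans ?_ h1
    apply one_div_le_one_div_of_le (by positivity)
    have : (m : ℝ) ≤ m' := by exact_mod_cast hmm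
    linarith
  have hBempty : ⋂ m, B m = ∅ := by
    rw [eq_empty_iff_forall_notMem]
    intro x hx
    rw [mem_iInter] at hx
    have hxU : P x 0 ∈ U := (hx 0).1
    have hpos : 0 < Metric.infDist (P x 0) Uᶜ := by
      rw [← hFcl.notMem_iff_infDist_pos hFne]
      exact fun h => h hxU
    obtain ⟨m, hm⟩ := exists_nat_one_div_lt hpos
    exact (hx m).2 hm.le
  have hlim : Tendsto (fun m => ν (B m)) atTop (𝓝 (ν (⋂ m, B m))) :=
    tendsto_measure_iInter_atTop (fun m => (hBmeas m).nullMeasurableSet) hBanti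
      ⟨0, measure_ne_top _ _⟩
  rw [hBempty, measure_empty] at hlim
  have h1 : ENNReal.ofReal (ε / 12) ≤ 0 :=
    ge_of_tendsto hlim (eventually_atTop.mpr ⟨m₀, hBlow⟩)
  have h2 : 0 < ENNReal.ofReal (ε / 12) := ENNReal.ofReal_pos.mpr (by positivity)
  exact absurd h1 (not_le.mpr h2)

end Pool.Agent.H58.FreeTree
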