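import Pool.Agent.H58.FreeTree.RTree

open Set Topology Filter PiNat

namespace Pool.Agent.H58.FreeTree

/-! ### Numerology -/

/-- Number of vertices at level `n`. -/
def N (n : ℕ) : ℕ := 2 ^ n * n.factorial

/-- Height (distance to the leaves) of the vertices at level `n`. -/
noncomputable def t (n : ℕ) : ℝ := 2 / N (n + 1)

lemma N_zero : N 0 = 1 := rfl

lemma N_succ (n : ℕ) : N (n + 1) = N n * (2 * n + 2) := by
  unfold N
  rw [Nat.factorial_succ, pow_succ]; ring

lemma N_pos (n : ℕ) : 0 < N n := by unfold N; positivity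

lemma t_pos (n : ℕ) : 0 < t n := by
  unfold t
  have : (0 : ℝ) < N (n + 1) := by exact_mod_cast N_pos _
  positivity

lemma t_zero : t 0 = 1 := by
  unfold t
  rw [N_succ, N_zero]; norm_num

lemma t_succ (n : ℕ) : t (n + 1) = t n / (2 * n + 4) := by
  unfold t
  rw [N_succ (n + 1)]
  have : (N (n + 1) : ℝ) ≠ 0 := by exact_mod_cast (N_pos _).ne'
  push_cast
  field_simp
  ring

lemma t_succ_le (n : ℕ) : t (n + 1) ≤ t n / 4 := by
  rw [t_succ]
  have := t_pos n
  apply div_le_div_of_nonneg_left this.le (by norm_num)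
  have : (0 : ℝ) ≤ n := Nat.cast_nonneg n
  linarith

lemma t_antitone : Antitone t := antitone_nat_of_succ_le fun n => by
  have := t_succ_le n
  have := t_pos n
  linarith

lemma t_strictAnti : StrictAnti t := strictAnti_nat_of_succ_lt fun n => by
  have := t_succ_le n
  have := t_pos n
  linarith

lemma t_le_pow (n : ℕ) : t n ≤ (1 / 2) ^ n := by
  induction n with
  | zero => rw [t_zero]; simp
  | succ n ih =>
    have := t_succ_le n
    have := t_pos n
    rw [pow_succ]
    linarith

lemma t_tendsto : Tendsto t atTop (𝓝 0) := by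
  apply squeeze_zero (fun n => (t_pos n).le) t_le_pow
  exact tendsto_pow_atTop_nhds_zero_of_lt_one (by norm_num) (by norm_num)

lemma t_le_one (n : ℕ) : t n ≤ 1 := by
  rw [← t_zero]; exact t_antitone (Nat.zero_le n)

/-! ### The space of leaves -/

/-- Leaves: infinite sequences with `n`-th digit in `Fin (2 n + 2)`. -/
abbrev Leaf := ∀ n : ℕ, Fin (2 * n + 2)

/-- Height of the meeting point of two leaves. -/
noncomputable def τ (x y : Leaf) : ℝ := by
  classical exact if x = y then 0 else t (firstDiff x y)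

lemma τ_self (x : Leaf) : τ x x = 0 := by unfold τ; simp

lemma τ_ne {x y : Leaf} (h : x ≠ y) : τ x y = t (firstDiff x y) := by unfold τ; simp [h]

lemma τ_comm (x y : Leaf) : τ x y = τ y x := by
  by_cases h : x = y
  · rw [h]
  · rw [τ_ne h, τ_ne (Ne.symm h), firstDiff_comm]

lemma τ_nonneg (x y : Leaf) : 0 ≤ τ x y := by
  by_cases h : x = y
  · rw [h, τ_self]
  · rw [τ_ne h]; exact (t_pos _).le

lemma τ_le_one (x y : Leaf) : τ x y ≤ 1 := by
  by_cases h : x = y
  · rw [h, τ_self]; norm_num
  · rw [τ_ne h]; exact t_le_one _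

lemma τ_ultra (x y z : Leaf) : τ x z ≤ max (τ x y) (τ y z) := by
  by_cases hxz : x = z
  · rw [hxz, τ_self]; exact le_max_of_le_left (τ_nonneg _ _)
  by_cases hxy : x = y
  · rw [hxy]; exact le_max_right _ _
  by_cases hyz : y = z
  · rw [hyz]; exact le_max_left _ _
  rw [τ_ne hxz, τ_ne hxy, τ_ne hyz]
  have h := min_firstDiff_le x y z hxz
  rcases min_le_iff.mp h with h | h
  · exact le_max_of_le_left (t_antitone h)
  · exact le_max_of_le_right (t_antitone h)

/-- If the first `n` digits agree then the meeting point is at height at most `t n`. -/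
lemma τ_le_of_agree {x y : Leaf} {n : ℕ} (h : ∀ i < n, x i = y i) : τ x y ≤ t n := by
  by_cases hxy : x = y
  · rw [hxy, τ_self]; exact (t_pos _).le
  · rw [τ_ne hxy]
    apply t_antitone
    by_contra hcon
    push Not at hcon
    exact apply_firstDiff_ne hxy (h _ hcon)

/-- If the meeting point is below height `t n` then the first `n + 1` digits agree. -/
lemma agree_of_τ_lt {x y : Leaf} {n : ℕ} (h : τ x y < t n) : ∀ i < n + 1, x i = y i := by
  intro i hi
  by_cases hxy : x = y
  · rw [hxy]
  · rw [τ_ne hxy] at h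
    have h2 : n < firstDiff x y := t_strictAnti.lt_iff_gt.mp h
    exact apply_eq_of_lt_firstDiff (by omega)

/-! ### The tree -/

/-- Pre-points: a leaf and a height. -/
def Pre : Type := Leaf × Icc (0 : ℝ) 1

/-- The pseudo-distance. -/
noncomputable def pdist (p q : Pre) : ℝ :=
  2 * max (max (p.2 : ℝ) q.2) (τ p.1 q.1) - p.2 - q.2

noncomputable instance : PseudoMetricSpace Pre where
  dist := pdist
  dist_self p := by
    change 2 * max (max (p.2 : ℝ) p.2) (τ p.1 p.1) - p.2 - p.2 = 0
    rw [τ_self, max_self, max_eq_left p.2.2.1]; ring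
  dist_comm p q := by
    change 2 * max (max (p.2 : ℝ) q.2) (τ p.1 q.1) - p.2 - q.2 =
      2 * max (max (q.2 : ℝ) p.2) (τ q.1 p.1) - q.2 - p.2
    rw [τ_comm, max_comm (p.2 : ℝ)]; ring
  dist_triangle p q r := by
    change 2 * max (max (p.2 : ℝ) r.2) (τ p.1 r.1) - p.2 - r.2 ≤
      (2 * max (max (p.2 : ℝ) q.2) (τ p.1 q.1) - p.2 - q.2) +
      (2 * max (max (q.2 : ℝ) r.2) (τ q.1 r.1) - q.2 - r.2)
    have h1 : max (max (p.2 : ℝ) r.2) (τ p.1 r.1) ≤
        max (max (max (p.2 : ℝ) q.2) (τ p.1 q.1)) (max (max (q.2 : ℝ) r.2) (τ q.1 r.1)) := by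
      apply max_le
      · apply max_le
        · exact le_max_of_le_left (le_max_of_le_left (le_max_left _ _))
        · exact le_max_of_le_right (le_max_of_le_left (le_max_right _ _))
      · refine (τ_ultra p.1 q.1 r.1).trans (max_le ?_ ?_)
        · exact le_max_of_le_left (le_max_right _ _)
        · exact le_max_of_le_right (le_max_right _ _)
    have h2 : (q.2 : ℝ) ≤ max (max (p.2 : ℝ) q.2) (τ p.1 q.1) :=
      le_max_of_le_left (le_max_right _ _)
    have h3 : (q.2 : ℝ) ≤ max (max (q.2 : ℝ) r.2) (τ q.1 r.1) :=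
      le_max_of_le_left (le_max_left _ _)
    rcases le_total (max (max (p.2 : ℝ) q.2) (τ p.1 q.1))
      (max (max (q.2 : ℝ) r.2) (τ q.1 r.1)) with h | h
    · rw [max_eq_right h] at h1; linarith
    · rw [max_eq_left h] at h1; linarith

/-- The compact `ℝ`-tree of the counterexample. -/
abbrev Tree := SeparationQuotient Pre

/-- The point at height `s` on the ray from the root to the leaf `x`. -/
noncomputable def P (x : Leaf) (s : ℝ) : Tree :=
  SeparationQuotient.mk (X := Pre) (x, projIcc 0 1 zero_le_one s)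

lemma dist_P {x y : Leaf} {s u : ℝ} (hs : s ∈ Icc (0 : ℝ) 1) (hu : u ∈ Icc (0 : ℝ) 1) :
    dist (P x s) (P y u) = 2 * max (max s u) (τ x y) - s - u := by
  have h : dist (P x s) (P y u) = pdist (x, projIcc 0 1 zero_le_one s)
    (y, projIcc 0 1 zero_le_one u) := rfl
  rw [h]
  unfold pdist
  simp only
  rw [projIcc_of_mem _ hs, projIcc_of_mem _ hu]

lemma exists_P (p : Tree) : ∃ x : Leaf, ∃ s ∈ Icc (0 : ℝ) 1, P x s = p := by
  obtain ⟨⟨x, s⟩, rfl⟩ := SeparationQuotient.surjective_mk p
  refine ⟨x, s, s.2, ?_⟩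
  unfold P
  rw [projIcc_of_mem _ s.2]

lemma dist_P_same (x : Leaf) {s u : ℝ} (hs : s ∈ Icc (0 : ℝ) 1) (hu : u ∈ Icc (0 : ℝ) 1) :
    dist (P x s) (P x u) = |s - u| := by
  rw [dist_P hs hu, τ_self, max_eq_left (le_max_of_le_left hs.1)]
  rcases le_total s u with h | h
  · rw [max_eq_right h, abs_of_nonpos (by linarith)]; ring
  · rw [max_eq_left h, abs_of_nonneg (by linarith)]; ring

lemma P_eq {x y : Leaf} {s : ℝ} (hs : s ∈ Icc (0 : ℝ) 1) (h : τ x y ≤ s) : P x s = P y s := by
  rw [← dist_eq_zero, dist_P hs hs, max_self, max_eq_left h]; ring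

/-- The root. -/
noncomputable def root : Tree := P (fun _ => 0) 1

lemma P_one (x : Leaf) : P x 1 = root := P_eq ⟨zero_le_one, le_rfl⟩ (τ_le_one _ _)

lemma continuous_P_left (x : Leaf) : Continuous fun s : ℝ => P x s := by
  have h1 : Continuous fun s : Icc (0 : ℝ) 1 => P x s := by
    apply Isometry.continuous
    apply Isometry.of_dist_eq
    intro a b
    rw [dist_P_same x a.2 b.2]; rfl
  have h2 : (fun s : ℝ => P x s) = (fun s : Icc (0 : ℝ) 1 => P x s) ∘
      (projIcc 0 1 zero_le_one) := by
    funext s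
    unfold P
    simp
  rw [h2]
  exact h1.comp continuous_projIcc

/-! ### Compactness -/

lemma continuous_P : Continuous fun p : Leaf × Icc (0 : ℝ) 1 => P p.1 p.2 := by
  rw [continuous_iff_continuousAt]
  rintro ⟨x, s⟩
  rw [ContinuousAt, tendsto_iff_dist_tendsto_zero]
  have hbound : ∀ p : Leaf × Icc (0 : ℝ) 1, dist (P p.1 p.2) (P x s) ≤
      dist p.2 s + 2 * τ p.1 x := by
    rintro ⟨y, u⟩
    rw [dist_P u.2 s.2, Subtype.dist_eq, Real.dist_eq]
    have h1 : max (max (u : ℝ) s) (τ y x) ≤ max (u : ℝ) s + τ y x := by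
      apply max_le
      · linarith [τ_nonneg y x]
      · have : 0 ≤ max (u : ℝ) s := le_max_of_le_left u.2.1
        linarith
    have h2 : 2 * max (u : ℝ) s - u - s = |(u : ℝ) - s| := by
      rcases le_total (u : ℝ) s with h | h
      · rw [max_eq_right h, abs_of_nonpos (by linarith)]; ring
      · rw [max_eq_left h, abs_of_nonneg (by linarith)]; ring
    simp only
    linarith
  have hτ : Tendsto (fun p : Leaf × Icc (0 : ℝ) 1 => τ p.1 x) (𝓝 (x, s)) (𝓝 0) := by
    rw [Metric.tendsto_nhds]
    intro ε hε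
    obtain ⟨n, hn⟩ := (t_tendsto.eventually (gt_mem_nhds hε)).exists
    have hopen : IsOpen {p : Leaf × Icc (0 : ℝ) 1 | p.1 ∈ cylinder x n} :=
      (isOpen_cylinder (fun n => Fin (2 * n + 2)) x n).preimage continuous_fst
    have hmem : (x, s) ∈ {p : Leaf × Icc (0 : ℝ) 1 | p.1 ∈ cylinder x n} :=
      self_mem_cylinder x n
    filter_upwards [hopen.mem_nhds hmem] with p hp
    rw [Real.dist_eq, sub_zero, abs_of_nonneg (τ_nonneg _ _)]
    exact (τ_le_of_agree (fun i hi => hp i hi)).trans_lt hn
  have hs : Tendsto (fun p : Leaf × Icc (0 : ℝ) 1 => dist p.2 s) (𝓝 (x, s)) (𝓝 0) := by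
    have : Continuous fun p : Leaf × Icc (0 : ℝ) 1 => dist p.2 s := by fun_prop
    have := this.tendsto (x, s)
    simpa using this
  have hsum := hs.add (hτ.const_mul 2)
  simp only [mul_zero, add_zero] at hsum
  exact squeeze_zero (fun _ => dist_nonneg) hbound hsum

instance : CompactSpace Tree := by
  have hsurj : Function.Surjective fun p : Leaf × Icc (0 : ℝ) 1 => P p.1 p.2 := by
    intro p
    obtain ⟨x, s, hs, rfl⟩ := exists_P p
    exact ⟨(x, ⟨s, hs⟩), rfl⟩
  exact hsurj.compactSpace continuous_P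

/-! ### The tree is an `ℝ`-tree -/

lemma ultra4 {a b c d e f : ℝ}
    -- a = xy, b = zw, c = xz, d = yw, e = xw, f = yz
    (h1 : a ≤ max c f) (h2 : a ≤ max e d) (h3 : b ≤ max c e) (h4 : b ≤ max f d) :
    a + b ≤ max (c + d) (e + f) := by
  rw [le_max_iff] at *
  by_contra hcon
  push Not at hcon
  obtain ⟨k1, k2⟩ := hcon
  rcases h1 with h1 | h1 <;> rcases h2 with h2 | h2 <;> rcases h3 with h3 | h3 <;>
    rcases h4 with h4 | h4 <;> linarith

lemma fourPoint (x y z w : Tree) :
    dist x y + dist z w ≤ max (dist x z + dist y w) (dist x w + dist y z) := by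
  obtain ⟨x, a, ha, rfl⟩ := exists_P x
  obtain ⟨y, b, hb, rfl⟩ := exists_P y
  obtain ⟨z, c, hc, rfl⟩ := exists_P z
  obtain ⟨w, d, hd, rfl⟩ := exists_P w
  rw [dist_P ha hb, dist_P hc hd, dist_P ha hc, dist_P hb hd, dist_P ha hd, dist_P hb hc]
  have key : ∀ (x y z : Leaf) (a b c : ℝ), max (max a c) (τ x z) ≤
      max (max (max a b) (τ x y)) (max (max b c) (τ y z)) := by
    intro x y z a b c
    apply max_le
    · apply max_le
      · exact le_max_of_le_left (le_max_of_le_left (le_max_left _ _))
      · exact le_max_of_le_right (le_max_of_le_left (le_max_right _ _))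
    · refine (τ_ultra x y z).trans (max_le ?_ ?_)
      · exact le_max_of_le_left (le_max_right _ _)
      · exact le_max_of_le_right (le_max_right _ _)
  have sym : ∀ (x y : Leaf) (a b : ℝ), max (max a b) (τ x y) = max (max b a) (τ y x) := by
    intro x y a b
    rw [max_comm a b, τ_comm]
  have h := @ultra4 (max (max a b) (τ x y)) (max (max c d) (τ z w)) (max (max a c) (τ x z))
    (max (max b d) (τ y w)) (max (max a d) (τ x w)) (max (max b c) (τ y z))
    (by have := key x z y a c b; rwa [sym z y c b] at this)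
    (by have := key x w y a d b; rwa [sym w y d b] at this)
    (by have := key z x w c a d; rwa [sym z x c a] at this)
    (by have := key z y w c b d; rwa [sym z y c b] at this)
  rcases le_max_iff.mp h with h | h
  · apply le_max_of_le_left; linarith
  · apply le_max_of_le_right; linarith

lemma geodesic (p q : Tree) : ∃ φ : ℝ → Tree, φ 0 = p ∧ φ (dist p q) = q ∧
    ∀ s ∈ Icc 0 (dist p q), ∀ t ∈ Icc 0 (dist p q), dist (φ s) (φ t) = |s - t| := by
  obtain ⟨x, s, hs, rfl⟩ := exists_P p
  obtain ⟨y, u, hu, rfl⟩ := exists_P q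
  rw [dist_P hs hu]
  set m := max (max s u) (τ x y) with hm
  have hsm : s ≤ m := le_max_of_le_left (le_max_left _ _)
  have hum : u ≤ m := le_max_of_le_left (le_max_right _ _)
  have hτm : τ x y ≤ m := le_max_right _ _
  have hm1 : m ≤ 1 := max_le (max_le hs.2 hu.2) (τ_le_one _ _)
  have hm0 : 0 ≤ m := hs.1.trans hsm
  have hmI : m ∈ Icc (0 : ℝ) 1 := ⟨hm0, hm1⟩
  set D := 2 * m - s - u with hD
  refine ⟨fun r => if r ≤ m - s then P x (s + r) else P y (2 * m - s - r), ?_, ?_, ?_⟩
  · simp only [sub_nonneg, hsm, if_true, add_zero]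
  · dsimp only
    by_cases h : D ≤ m - s
    · rw [if_pos h]
      have h1 : m = u := by linarith
      have h2 : s + D = u := by rw [hD, h1]; ring
      rw [h2]
      exact P_eq hu (by rw [← h1]; exact hτm)
    · rw [if_neg h]
      congr 1
      rw [hD]; ring
  · -- the isometry property, first for `a ≤ b`
    have main : ∀ a ∈ Icc (0 : ℝ) D, ∀ b ∈ Icc (0 : ℝ) D, a ≤ b →
        dist (if a ≤ m - s then P x (s + a) else P y (2 * m - s - a))
          (if b ≤ m - s then P x (s + b) else P y (2 * m - s - b)) = |a - b| := by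
      intro a ha b hb hab
      by_cases h1 : a ≤ m - s <;> by_cases h2 : b ≤ m - s
      · rw [if_pos h1, if_pos h2, dist_P_same x ⟨by linarith [hs.1, ha.1], by linarith⟩
          ⟨by linarith [hs.1, hb.1], by linarith⟩]
        congr 1; ring
      · rw [if_pos h1, if_neg h2]
        push Not at h2
        have e1 : s + a ∈ Icc (0 : ℝ) 1 := ⟨by linarith [hs.1, ha.1], by linarith⟩
        have e2 : 2 * m - s - b ∈ Icc (0 : ℝ) 1 := ⟨by linarith [hb.2, hu.1], by linarith⟩
        rw [dist_P e1 e2]
        have h3 : max (max (s + a) (2 * m - s - b)) (τ x y) = m := by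
          apply le_antisymm
          · exact max_le (max_le (by linarith) (by linarith)) hτm
          · rcases le_total (max s u) (τ x y) with h | h
            · rw [hm, max_eq_right h]; exact le_max_right _ _
            · rw [max_eq_left h] at hm
              rcases le_total s u with h' | h'
              · rw [max_eq_right h'] at hm
                exfalso
                have := hb.2
                linarith
              · rw [max_eq_left h'] at hm
                apply le_max_of_le_left
                apply le_max_of_le_left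
                linarith [ha.1]
        rw [h3, abs_of_nonpos (by linarith)]; ring
      · exfalso; push Not at h1; linarith
      · rw [if_neg h1, if_neg h2]
        push Not at h1 h2
        rw [dist_P_same y ⟨by linarith [ha.2, hu.1], by linarith⟩
          ⟨by linarith [hb.2, hu.1], by linarith⟩]
        rw [abs_sub_comm a b]
        congr 1; ring
    intro a ha b hb
    rcases le_total a b with h | h
    · exact main a ha b hb h
    · rw [dist_comm, main b hb a ha h, abs_sub_comm]

theorem tree_isRTree : IsRTree Tree := isRTree_of_fourPoint fourPoint geodesic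

end Pool.Agent.H58.FreeTree
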